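import Pool.Agent.H43.WM.Fit

/-! The harmonic operator commutes with everything; subsystems. -/

namespace H43.WM

variable {F V : Type*} [Field F] [CharZero F] [AddCommGroup V] [Module F V]

namespace Sys

variable {h l lam ρ τ : Module.End F V} {B : ℤ → ℤ → Submodule F V}

omit [CharZero F] in
theorem bx_mem (S : Sys h l lam ρ τ B) {a j : ℤ} (c : F) {x : V} (hx : x ∈ B a j) :
    bx lam ρ τ c x ∈ B a j := by
  rw [bx_apply]
  refine Submodule.sub_mem _ (Submodule.sub_mem _ ?_ ?_)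
    (Submodule.smul_mem _ _ (Submodule.add_mem _ ?_ ?_))
  · exact cm (S.τ_mem _ _ _ (S.ρ'_mem hx)) (by ring) (by ring)
  · exact cm (S.τ'_mem (S.ρ_mem _ _ _ hx)) (by ring) (by ring)
  · exact cm (S.ρ_mem _ _ _ (S.τ'_mem hx)) (by ring) (by ring)
  · exact cm (S.τ'_mem (S.ρ_mem _ _ _ hx)) (by ring) (by ring)

theorem bx_lam (S : Sys h l lam ρ τ B) {a j : ℤ} {x : V} (hx : x ∈ B a j) :
    bx lam ρ τ (a : F) (lam x) = lam (bx lam ρ τ (a : F) x) := by
  rcases lt_or_ge a 0 with h0 | h0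
  · rw [S.neg a j h0 x hx]; simp
  have key : (a : F) • (dp lam ρ (dp lam τ x) + dp lam τ (dp lam ρ x)) = 0 := by
    rcases eq_or_lt_of_le h0 with h1 | h1
    · rw [← h1]; simp
    · rw [S.R2 (by omega) hx, smul_zero]
  rw [bx_apply, bx_apply]
  simp only [map_sub, map_smul, map_add, lam_ap lam ρ, lam_ap lam τ, S.lamρ, S.lamτ]
  rw [← sub_eq_zero]
  rw [← key]
  module

theorem bx_l (S : Sys h l lam ρ τ B) {a j : ℤ} {x : V} (hx : x ∈ B a j) :
    bx lam ρ τ (a : F) (l x) = l (bx lam ρ τ (a : F) x) := by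
  rcases lt_or_ge a 0 with h0 | h0
  · rw [S.neg a j h0 x hx]; simp
  have key : (a : F) • (ρ (τ x) + τ (ρ x)) = 0 := by
    rcases eq_or_lt_of_le h0 with h1 | h1
    · rw [← h1]; simp
    · rw [S.anti a j (by omega) x hx, smul_zero]
  have e1 : dp lam ρ (l x) = l (dp lam ρ x) - ρ x := by rw [S.lρ' hx]; abel
  have e2 : dp lam τ (l x) = l (dp lam τ x) - τ x := by rw [S.lτ' hx]; abel
  have e3 : dp lam τ (l (ρ x)) = l (dp lam τ (ρ x)) - τ (ρ x) := by
    rw [S.lτ' (S.ρ_mem _ _ _ hx)]; abel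
  rw [bx_apply, bx_apply, S.ρl, e1, e2, e3]
  simp only [map_sub, map_smul, map_add, S.ρl, S.τl]
  rw [← sub_eq_zero, ← key]
  module

theorem bx_d (S : Sys h l lam ρ τ B) {i j : ℤ} {x : ℕ → V} (hx : x ∈ LL B i j) :
    dd ρ τ (fun t : ℕ => bx lam ρ τ ((i + 2 * t : ℤ) : F) (x t)) =
      fun t : ℕ => bx lam ρ τ ((i + 1 + 2 * t : ℤ) : F) (dd ρ τ x t) := by
  rw [← S.ho_eq hx, ← S.ho_eq (S.LL_d hx), map_add, S.LL_dd hx,
    S.LL_dd (S.ho_mem hx)]
  have : ho (dp lam ρ) (dp lam τ) (i + 1 + 1) (0 : ℕ → V) = 0 := by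
    ext t; simp [ho]
  rw [this]; simp

theorem bx_ρ (S : Sys h l lam ρ τ B) {a j : ℤ} {x : V} (hx : x ∈ B a j) :
    bx lam ρ τ ((a + 1 : ℤ) : F) (ρ x) = ρ (bx lam ρ τ (a : F) x) := by
  rcases lt_or_ge a 0 with h0 | h0
  · rw [S.neg a j h0 x hx]; simp
  have h1 := S.bx_d (single_mem (i := a) (j := j) 0 (cm hx (by simp) rfl) (by simpa using h0))
  have h2 := congrFun h1 0
  simp only [dd_apply, Pi.single_eq_same, Pi.single_eq_of_ne (show (0 : ℕ) + 1 ≠ 0 by omega),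
    map_zero, add_zero, Nat.cast_zero, mul_zero] at h2
  exact h2.symm

theorem bx_τ (S : Sys h l lam ρ τ B) {a j : ℤ} {x : V} (hx : x ∈ B a j) :
    bx lam ρ τ ((a - 1 : ℤ) : F) (τ x) = τ (bx lam ρ τ (a : F) x) := by
  rcases lt_or_ge a 1 with h0 | h0
  · rw [S.neg _ _ (by omega) _ (S.τ_mem _ _ _ hx),
      S.neg _ _ (by omega) _ (S.τ_mem _ _ _ (S.bx_mem (a : F) hx)), map_zero]
  have h1 := S.bx_d (single_mem (i := a - 2) (j := j) 1 (cm hx (by simp) rfl)
    (by push_cast; omega))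
  have h2 := congrFun h1 0
  simp only [dd_apply, Pi.single_eq_same, Pi.single_eq_of_ne (show (0 : ℕ) ≠ 1 by omega),
    map_zero, zero_add, Nat.cast_zero, mul_zero, add_zero] at h2
  have e1 : (a - 2 + 2 * ((1 : ℕ) : ℤ)) = a := by push_cast; ring
  have e2 : (a - 2 + 1 : ℤ) = a - 1 := by ring
  rw [e1, e2] at h2
  exact h2.symm

/-- The subsystem cut out by an operator commuting with everything. -/
theorem sub (S : Sys h l lam ρ τ B) (P : Module.End F V)
    (Pl : ∀ a j x, x ∈ B a j → P (l x) = l (P x))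
    (Plam : ∀ a j x, x ∈ B a j → P (lam x) = lam (P x))
    (Pρ : ∀ a j x, x ∈ B a j → P (ρ x) = ρ (P x))
    (Pτ : ∀ a j x, x ∈ B a j → P (τ x) = τ (P x)) :
    Sys h l lam ρ τ (fun a j => B a j ⊓ LinearMap.ker (P - 1)) := by
  have hk : ∀ x : V, x ∈ LinearMap.ker (P - 1) ↔ P x = x := by
    intro x
    rw [LinearMap.mem_ker, LinearMap.sub_apply, sub_eq_zero]; rfl
  exact
  { t := S.t
    wt := fun a j x hx => S.wt a j x hx.1
    l_mem := fun a j x hx => ⟨S.l_mem a j x hx.1, by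
      have := (hk x).mp hx.2
      exact (hk _).mpr (by rw [Pl a j x hx.1, this])⟩
    lam_mem := fun a j x hx => ⟨S.lam_mem a j x hx.1, by
      have := (hk x).mp hx.2
      exact (hk _).mpr (by rw [Plam a j x hx.1, this])⟩
    ρ_mem := fun a j x hx => ⟨S.ρ_mem a j x hx.1, by
      have := (hk x).mp hx.2
      exact (hk _).mpr (by rw [Pρ a j x hx.1, this])⟩
    τ_mem := fun a j x hx => ⟨S.τ_mem a j x hx.1, by
      have := (hk x).mp hx.2
      exact (hk _).mpr (by rw [Pτ a j x hx.1, this])⟩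
    bdd := by
      obtain ⟨R, hR⟩ := S.bdd
      exact ⟨R, fun a j h x hx => hR a j h x hx.1⟩
    neg := fun a j h x hx => S.neg a j h x hx.1
    ρl := S.ρl
    τl := S.τl
    ρρ := S.ρρ
    ττ := S.ττ
    anti := fun a j h x hx => S.anti a j h x hx.1
    lamρ := S.lamρ
    lamτ := S.lamτ }

end Sys

end H43.WM
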