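import Mathlib

/-! The linear algebra of the weight spectral sequence of a strictly semistable projective scheme
(Rapoport-Zink, Mokrane), its two differentials and the condition used in the main theorem. -/

namespace H43.WM

/-- The commutator `[lam, s] = lam s - s lam`. -/
def dp {F M : Type*} [Field F] [AddCommGroup M] [Module F M] (lam s : Module.End F M) :
    Module.End F M := lam * s - s * lam

/-- The operators on `V = ⊕ H^*(Z^{(a+1)})`, the sum over `a ≥ 0` of the cohomology of the
disjoint unions `Z^{(a+1)}` of the `(a+1)`-fold intersections of components of a semistable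
special fibre of dimension `δ`:
* `g` is multiplication by `a` on `H^*(Z^{(a+1)})`;
* `h` is multiplication by `c - (δ - a)` on `H^c(Z^{(a+1)})`;
* `l` is the Lefschetz operator of an ample class, `(h, l, lam)` its sl2-triple;
* `res` is the alternating sum of the restrictions `H^c(Z^{(a+1)}) → H^c(Z^{(a+2)})`;
* `gys` is the alternating sum of the Gysin maps `H^c(Z^{(a+1)}) → H^{c+2}(Z^{(a)})`. -/
structure Datum (F V : Type*) [Field F] [AddCommGroup V] [Module F V] where
  g : Module.End F V
  h : Module.End F V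
  l : Module.End F V
  lam : Module.End F V
  res : Module.End F V
  gys : Module.End F V
  g_nat : ∀ (c : F) (x : V), g x = c • x → x ≠ 0 → ∃ a : ℕ, c = a
  gh : ∀ x, g (h x) = h (g x)
  gl : ∀ x, g (l x) = l (g x)
  glam : ∀ x, g (lam x) = lam (g x)
  hl : ∀ x, h (l x) = l (h x) + (2 : F) • l x
  hlam : ∀ x, h (lam x) = lam (h x) - (2 : F) • lam x
  llam : ∀ x, l (lam x) = lam (l x) + h x
  gres : ∀ x, g (res x) = res (g x) + res x
  hres : ∀ x, h (res x) = res (h x) + res x
  lres : ∀ x, l (res x) = res (l x)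
  ggys : ∀ x, g (gys x) = gys (g x) - gys x
  hgys : ∀ x, h (gys x) = gys (h x) + gys x
  lgys : ∀ x, l (gys x) = gys (l x)
  res_res : ∀ x, res (res x) = 0
  gys_gys : ∀ x, gys (gys x) = 0
  anti : ∀ (a : ℕ) (x : V), g x = ((a : F) + 1) • x → res (gys x) + gys (res x) = 0

variable {F V : Type*} [Field F] [AddCommGroup V] [Module F V]

namespace Datum

/-- The `E_1`-term in degree `i` and Lefschetz weight `j`: families `(x_t)`, `t ≥ max(0,-i)`, with
`x_t` in `H^*(Z^{(i+2t+1)})` of `h`-weight `j`. It contributes to the graded piece of weight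
`n - i` of `H^n(Y)`, `n = dim Y + j`. -/
def E1 (D : Datum F V) (i j : ℤ) : Submodule F (ℕ → V) where
  carrier := {x | ∀ t : ℕ, D.g (x t) = ((i + 2 * t : ℤ) : F) • x t ∧
    D.h (x t) = (j : F) • x t ∧ (i + t < 0 → x t = 0)}
  add_mem' := by
    intro x y hx hy t
    obtain ⟨h1, h2, h3⟩ := hx t
    obtain ⟨k1, k2, k3⟩ := hy t
    refine ⟨?_, ?_, ?_⟩
    · simp only [Pi.add_apply, map_add, h1, k1, smul_add]
    · simp only [Pi.add_apply, map_add, h2, k2, smul_add]
    · intro h; simp [h3 h, k3 h]
  zero_mem' := by intro t; simp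
  smul_mem' := by
    intro c x hx t
    obtain ⟨h1, h2, h3⟩ := hx t
    refine ⟨?_, ?_, ?_⟩
    · simp only [Pi.smul_apply, map_smul, h1, smul_comm c]
    · simp only [Pi.smul_apply, map_smul, h2, smul_comm c]
    · intro h; simp [h3 h]

/-- The differential `d_1`, sum of the restriction and the Gysin maps. -/
def d (D : Datum F V) : Module.End F (ℕ → V) where
  toFun x t := D.res (x t) + D.gys (x (t + 1))
  map_add' x y := by ext t; simp only [Pi.add_apply, map_add]; abel
  map_smul' c x := by ext t; simp only [Pi.smul_apply, map_smul, smul_add, RingHom.id_apply]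

/-- Hard Lefschetz for the generic fibre `Y`: `l^n` is a bijection from the cohomology of the
`E_1`-complex in weight `-n` to that in weight `n`, in every degree `i`. -/
def HardLefschetz (D : Datum F V) : Prop :=
  ∀ (i : ℤ) (n : ℕ),
    (∀ x ∈ D.E1 i (-n), D.d x = 0 →
      (∃ z ∈ D.E1 (i - 1) (n - 1), D.d z = fun t => (D.l ^ n) (x t)) →
        ∃ z ∈ D.E1 (i - 1) (-n - 1), D.d z = x) ∧
    (∀ y ∈ D.E1 i n, D.d y = 0 →
      ∃ x ∈ D.E1 i (-n), D.d x = 0 ∧
        ∃ z ∈ D.E1 (i - 1) (n - 1), y = (fun t => (D.l ^ n) (x t)) + D.d z)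

/-- The weight-monodromy property of the part in `E`: for every `i ≥ 0` the `i`-th power of the
monodromy operator `N : (x_t) ↦ (x_{t+1})` is a bijection from the cohomology of the
`E_1`-complex in degree `-i` (graded pieces of weight `n + i`) to that in degree `i` (weight
`n - i`), for classes with components in `E`. -/
def WeightMonodromy (D : Datum F V) (E : Submodule F V) : Prop :=
  ∀ (i : ℕ) (j : ℤ),
    (∀ x ∈ D.E1 (-i) j, (∀ t, x t ∈ E) → D.d x = 0 →
      (∃ z ∈ D.E1 (i - 1) (j - 1), D.d z = fun t => x (t + i)) →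
        ∃ z ∈ D.E1 (-i - 1) (j - 1), (∀ t, z t ∈ E) ∧ D.d z = x) ∧
    (∀ y ∈ D.E1 i j, (∀ t, y t ∈ E) → D.d y = 0 →
      ∃ x ∈ D.E1 (-i) j, (∀ t, x t ∈ E) ∧ D.d x = 0 ∧
        ∃ z ∈ D.E1 (i - 1) (j - 1), (∀ t, z t ∈ E) ∧ y = (fun t => x (t + i)) + D.d z)

/-- Primitive cohomology `P^{δ-a-b}(Z^{(a+1)})`: lowest weight vectors of `h`-weight `-b`. -/
def prim (D : Datum F V) (a b : ℕ) : Submodule F V where
  carrier := {x | D.g x = (a : F) • x ∧ D.h x = -(b : F) • x ∧ D.lam x = 0}
  add_mem' := by
    rintro x y ⟨h1, h2, h3⟩ ⟨k1, k2, k3⟩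
    refine ⟨?_, ?_, ?_⟩
    · simp only [map_add, h1, k1, smul_add]
    · simp only [map_add, h2, k2, smul_add]
    · simp only [map_add, h3, k3, add_zero]
  zero_mem' := by simp
  smul_mem' := by
    rintro c x ⟨h1, h2, h3⟩
    refine ⟨?_, ?_, ?_⟩
    · simp only [map_smul, h1, smul_comm c]
    · simp only [map_smul, h2, smul_comm c]
    · simp only [map_smul, h3, smul_zero]

end Datum

/-- The operator `gys [lam,res] - [lam,gys] res - a (res [lam,gys] + [lam,gys] res)`. -/
def bx (lam res gys : Module.End F V) (a : F) : Module.End F V :=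
  gys * dp lam res - dp lam gys * res - a • (res * dp lam gys + dp lam gys * res)

namespace Datum

/-- The harmonic operator on `H^*(Z^{(a+1)})`. -/
def box (D : Datum F V) (a : ℕ) : Module.End F V := bx D.lam D.res D.gys (a : F)

/-- The condition on the part in `E` of the primitive cohomology `prim a b`: either it has
dimension at most one, or `box` is semisimple at the eigenvalue `0` on it. -/
def Tame (D : Datum F V) (E : Submodule F V) (a b : ℕ) : Prop :=
  Module.finrank F ↥(D.prim a b ⊓ E) ≤ 1 ∨
  ∀ x ∈ D.prim a b ⊓ E, D.box a (D.box a x) = 0 → D.box a x = 0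

end Datum

/-- The weight data of a semistable projective scheme: the operators of `Datum` together with
hard Lefschetz for the generic fibre, on the `E_2`-page. -/
structure SemistableDatum (F V : Type*) [Field F] [AddCommGroup V] [Module F V] extends
    Datum F V where
  hard : toDatum.HardLefschetz

/-- Operators commuting with all the operators of a datum, such as the Frobenius
`q^(-⌊c/2⌋) φ^f` on `H^c(Z^{(a+1)})`. -/
structure Commutes (D : Datum F V) (ψ : Module.End F V) : Prop where
  g : ∀ x, ψ (D.g x) = D.g (ψ x)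
  h : ∀ x, ψ (D.h x) = D.h (ψ x)
  l : ∀ x, ψ (D.l x) = D.l (ψ x)
  lam : ∀ x, ψ (D.lam x) = D.lam (ψ x)
  res : ∀ x, ψ (D.res x) = D.res (ψ x)
  gys : ∀ x, ψ (D.gys x) = D.gys (ψ x)

end H43.WM
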