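import Pool.Agent.H43.WM.Harm

/-! The weight-monodromy property for tame parts. -/

namespace H43.WM

open Polynomial

variable {F V : Type*} [Field F] [CharZero F] [AddCommGroup V] [Module F V]

namespace Datum

/-- Bigraded pieces. -/
def B0 (D : Datum F V) (a j : ℤ) : Submodule F V where
  carrier := {x | D.g x = (a : F) • x ∧ D.h x = (j : F) • x}
  add_mem' := by
    rintro x y ⟨h1, h2⟩ ⟨k1, k2⟩
    exact ⟨by rw [map_add, h1, k1, smul_add], by rw [map_add, h2, k2, smul_add]⟩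
  zero_mem' := by simp
  smul_mem' := by
    rintro c x ⟨h1, h2⟩
    exact ⟨by rw [map_smul, h1, smul_comm], by rw [map_smul, h2, smul_comm]⟩

omit [CharZero F] in
theorem mem_E1 (D : Datum F V) {i j : ℤ} {x : ℕ → V} : x ∈ D.E1 i j ↔ x ∈ LL D.B0 i j := by
  constructor
  · intro hx t
    obtain ⟨h1, h2, h3⟩ := hx t
    exact ⟨⟨h1, h2⟩, h3⟩
  · intro hx t
    obtain ⟨⟨h1, h2⟩, h3⟩ := hx t
    exact ⟨h1, h2, h3⟩

omit [CharZero F] in
theorem d_eq (D : Datum F V) (x : ℕ → V) : D.d x = dd D.res D.gys x := rfl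

/-- Integer eigenvalues of an endomorphism are bounded. -/
theorem eig_bdd [FiniteDimensional F V] (f : Module.End F V) :
    ∃ R : ℕ, ∀ a : ℤ, (R : ℤ) < |a| → ∀ x, f x = (a : F) • x → x = 0 := by
  have fin : Set.Finite {a : ℤ | f.HasEigenvalue (a : F)} := by
    have h1 : Set.Finite {c : F | f.HasEigenvalue c} := Module.End.finite_hasEigenvalue f
    exact Set.Finite.preimage (Int.cast_injective.injOn) h1
  obtain ⟨R, hR⟩ : ∃ R : ℕ, ∀ a ∈ {a : ℤ | f.HasEigenvalue (a : F)}, a.natAbs ≤ R := by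
    obtain ⟨R, hR⟩ := (fin.image Int.natAbs).bddAbove
    exact ⟨R, fun a ha => hR ⟨a, ha, rfl⟩⟩
  refine ⟨R, fun a ha x hx => ?_⟩
  by_contra hne
  have h1 : f.HasEigenvalue (a : F) :=
    Module.End.hasEigenvalue_of_hasEigenvector ⟨Module.End.mem_eigenspace_iff.mpr hx, hne⟩
  have h2 := hR a h1
  have : |a| = (a.natAbs : ℤ) := Int.abs_eq_natAbs a
  rw [this] at ha
  omega

/-- The system of a datum. -/
theorem sys0 [FiniteDimensional F V] (D : Datum F V) :
    Sys D.h D.l D.lam D.res D.gys D.B0 := by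
  have t : Trip D.h D.l D.lam := ⟨D.hl, D.hlam, D.llam⟩
  exact
  { t := t
    wt := fun a j x hx => hx.2
    l_mem := fun a j x hx => ⟨by rw [D.gl, hx.1, map_smul], by
      rw [D.hl, hx.2, map_smul]; push_cast; module⟩
    lam_mem := fun a j x hx => ⟨by rw [D.glam, hx.1, map_smul], by
      rw [D.hlam, hx.2, map_smul]; push_cast; module⟩
    ρ_mem := fun a j x hx => ⟨by rw [D.gres, hx.1, map_smul]; push_cast; module, by
      rw [D.hres, hx.2, map_smul]; push_cast; module⟩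
    τ_mem := fun a j x hx => ⟨by rw [D.ggys, hx.1, map_smul]; push_cast; module, by
      rw [D.hgys, hx.2, map_smul]; push_cast; module⟩
    bdd := by
      obtain ⟨R1, hR1⟩ := eig_bdd D.g
      obtain ⟨R2, hR2⟩ := eig_bdd D.h
      refine ⟨R1 + R2, fun a j h x hx => ?_⟩
      rcases h with h | h
      · exact hR2 j (by push_cast at h; omega) x hx.2
      · refine hR1 a ?_ x hx.1
        have := le_abs_self a
        push_cast at h; omega
    neg := fun a j ha x hx => by
      by_contra hne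
      obtain ⟨n, hn⟩ := D.g_nat (a : F) x hx.1 hne
      have : (a : F) = ((n : ℤ) : F) := by rw [hn]; simp
      have h2 : a = (n : ℤ) := Int.cast_injective this
      omega
    ρl := fun x => (D.lres x).symm
    τl := fun x => (D.lgys x).symm
    ρρ := D.res_res
    ττ := D.gys_gys
    anti := fun a j ha x hx => by
      obtain ⟨n, rfl⟩ : ∃ n : ℕ, a = (n : ℤ) + 1 := ⟨(a - 1).toNat, by omega⟩
      refine D.anti n x ?_
      rw [hx.1]; push_cast; rfl
    lamρ := double t D.res D.hres D.lres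
    lamτ := double t D.gys D.hgys D.lgys }

/-- The global harmonic operator. -/
def BX (D : Datum F V) : Module.End F V :=
  D.gys * dp D.lam D.res - dp D.lam D.gys * D.res
    - (D.res * dp D.lam D.gys + dp D.lam D.gys * D.res) * D.g

omit [CharZero F] in
theorem BX_eq (D : Datum F V) {a j : ℤ} {x : V} (hx : x ∈ D.B0 a j) :
    D.BX x = bx D.lam D.res D.gys (a : F) x := by
  have h1 : D.BX x = D.gys (dp D.lam D.res x) - dp D.lam D.gys (D.res x)
    - (D.res (dp D.lam D.gys (D.g x)) + dp D.lam D.gys (D.res (D.g x))) := rfl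
  rw [h1, hx.1, Sys.bx_apply]
  simp only [map_smul, smul_add]

end Datum

namespace Commutes

variable {D : Datum F V} {ψ : Module.End F V}

omit [CharZero F] in
theorem poly (c : Commutes D ψ) (p : F[X]) : Commutes D (aeval ψ p) where
  g x := poly_comm ψ D.g ⊤ (fun _ _ => trivial) (fun x _ => c.g x) p x trivial
  h x := poly_comm ψ D.h ⊤ (fun _ _ => trivial) (fun x _ => c.h x) p x trivial
  l x := poly_comm ψ D.l ⊤ (fun _ _ => trivial) (fun x _ => c.l x) p x trivial
  lam x := poly_comm ψ D.lam ⊤ (fun _ _ => trivial) (fun x _ => c.lam x) p x trivial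
  res x := poly_comm ψ D.res ⊤ (fun _ _ => trivial) (fun x _ => c.res x) p x trivial
  gys x := poly_comm ψ D.gys ⊤ (fun _ _ => trivial) (fun x _ => c.gys x) p x trivial

omit [CharZero F] in
theorem res' (c : Commutes D ψ) (x : V) : ψ (dp D.lam D.res x) = dp D.lam D.res (ψ x) := by
  rw [dp_apply, dp_apply, map_sub, c.lam, c.res, c.res, c.lam]

omit [CharZero F] in
theorem gys' (c : Commutes D ψ) (x : V) : ψ (dp D.lam D.gys x) = dp D.lam D.gys (ψ x) := by
  rw [dp_apply, dp_apply, map_sub, c.lam, c.gys, c.gys, c.lam]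

omit [CharZero F] in
theorem bx (c : Commutes D ψ) (a : F) (x : V) :
    ψ (bx D.lam D.res D.gys a x) = bx D.lam D.res D.gys a (ψ x) := by
  rw [Sys.bx_apply, Sys.bx_apply, map_sub, map_sub, map_smul, map_add, c.gys, c.res', c.gys', c.res,
    c.res, c.gys']

omit [CharZero F] in
theorem BX (c : Commutes D ψ) (x : V) : ψ (D.BX x) = D.BX (ψ x) := by
  have h1 : ∀ x, D.BX x = D.gys (dp D.lam D.res x) - dp D.lam D.gys (D.res x)
    - (D.res (dp D.lam D.gys (D.g x)) + dp D.lam D.gys (D.res (D.g x))) := fun _ => rfl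
  rw [h1, h1, map_sub, map_sub, map_add, c.gys, c.res', c.gys', c.res, c.res, c.gys', c.gys',
    c.res, c.g]

end Commutes

theorem ker_sub_one {F V : Type*} [Field F] [AddCommGroup V] [Module F V]
    (P : Module.End F V) (x : V) : x ∈ LinearMap.ker (P - 1) ↔ P x = x := by
  rw [LinearMap.mem_ker, LinearMap.sub_apply, sub_eq_zero]; rfl

/-- On a space of dimension at most one, `e (e x) = 0` implies `e x = 0`. -/
theorem one_dim (W : Submodule F V) [Module.Finite F W] (hW : Module.finrank F W ≤ 1)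
    (e : Module.End F V) (he : ∀ x ∈ W, e x ∈ W) (x : V) (hx : x ∈ W) (h0 : e (e x) = 0) :
    e x = 0 := by
  obtain ⟨v, hv⟩ := finrank_le_one_iff.mp hW
  obtain ⟨c1, hc1⟩ := hv ⟨x, hx⟩
  obtain ⟨c2, hc2⟩ := hv ⟨e v, he v v.2⟩
  have h1 : x = c1 • (v : V) := by
    have := congrArg Subtype.val hc1; simpa using this.symm
  have h2 : e v = c2 • (v : V) := by
    have := congrArg Subtype.val hc2; simpa using this.symm
  rw [h1, map_smul, h2, map_smul, map_smul, h2, smul_smul, smul_smul] at h0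
  rw [h1, map_smul, h2, smul_smul]
  rcases smul_eq_zero.mp h0 with h | h
  · have : c1 * c2 = 0 := by
      rcases mul_eq_zero.mp h with h | h
      · exact h
      · rw [h, mul_zero]
    rw [this, zero_smul]
  · rw [h, smul_zero]

section Stable

variable {D : Datum F V} {ψ : Module.End F V} {α : F}

omit [CharZero F] in
theorem maxGen_mem_of_comm (S : Module.End F V) (hS : ∀ x, ψ (S x) = S (ψ x)) {x : V}
    (hx : x ∈ ψ.maxGenEigenspace α) : S x ∈ ψ.maxGenEigenspace α := by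
  rw [Module.End.mem_maxGenEigenspace] at hx ⊢
  obtain ⟨k, hk⟩ := hx
  refine ⟨k, ?_⟩
  have hc : ∀ y, (ψ - α • (1 : Module.End F V)) (S y) = S ((ψ - α • (1 : Module.End F V)) y) := by
    intro y
    simp only [LinearMap.sub_apply, LinearMap.smul_apply, Module.End.one_apply, map_sub, map_smul,
      hS]
  have hck : ∀ (k : ℕ) (y : V), ((ψ - α • (1 : Module.End F V)) ^ k) (S y) =
      S (((ψ - α • (1 : Module.End F V)) ^ k) y) := by
    intro k
    induction k with
    | zero => intro y; simp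
    | succ k ih =>
      intro y
      rw [pow_succ, Module.End.mul_apply, Module.End.mul_apply, hc, ih]
  rw [hck, hk, map_zero]

omit [CharZero F] in
theorem mem_prim {a b : ℕ} {x : V} : x ∈ D.prim a b ↔
    D.g x = (a : F) • x ∧ D.h x = -(b : F) • x ∧ D.lam x = 0 := Iff.rfl

omit [CharZero F] in
theorem prim_iff {a b : ℕ} {x : V} : x ∈ D.prim a b ↔
    x ∈ D.B0 (a : ℤ) (-(b : ℤ)) ∧ D.lam x = 0 := by
  rw [mem_prim]
  constructor
  · rintro ⟨h1, h2, h3⟩
    exact ⟨⟨by rw [h1]; simp, by rw [h2]; simp⟩, h3⟩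
  · rintro ⟨⟨h1, h2⟩, h3⟩
    exact ⟨by rw [h1]; simp, by rw [h2]; simp, h3⟩

theorem box_prim [FiniteDimensional F V] {a b : ℕ} {x : V} (hx : x ∈ D.prim a b) :
    D.box a x ∈ D.prim a b := by
  rw [prim_iff] at hx ⊢
  have e : D.box a x = bx D.lam D.res D.gys ((a : ℤ) : F) x := by
    unfold Datum.box; push_cast; rfl
  rw [e]
  refine ⟨D.sys0.bx_mem _ hx.1, ?_⟩
  rw [← D.sys0.bx_lam hx.1, hx.2, map_zero]

/-- The semisimplicity condition holds on a tame part. -/
theorem tame_ss [FiniteDimensional F V] (c : Commutes D ψ) {a b : ℕ}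
    (ht : D.Tame (ψ.maxGenEigenspace α) a b) (x : V)
    (hx : x ∈ D.prim a b ⊓ ψ.maxGenEigenspace α)
    (h0 : D.box a (D.box a x) = 0) : D.box a x = 0 := by
  rcases ht with ht | ht
  · exact one_dim _ ht (D.box a) (fun y hy => ⟨box_prim hy.1,
        maxGen_mem_of_comm _ (c.bx (a : F)) hy.2⟩) x hx h0
  · exact ht x hx h0

end Stable

/-- **Main theorem.** -/
theorem weight_monodromy [FiniteDimensional F V] (D : Datum F V) (ψ : Module.End F V)
    (c : Commutes D ψ) (α : F) (hl : D.HardLefschetz)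
    (ht : ∀ a b : ℕ, 1 ≤ a → D.Tame (ψ.maxGenEigenspace α) a b) :
    D.WeightMonodromy (ψ.maxGenEigenspace α) := by
  set E := ψ.maxGenEigenspace α with hE
  have S := D.sys0
  -- the two projectors
  obtain ⟨p1, q1, hP1, ⟨n1, hn1⟩, hG1⟩ := fit ψ α
  obtain ⟨p2, q2, hP2, ⟨n2, hn2⟩, hG2⟩ := fit D.BX (0 : F)
  rw [map_zero, sub_zero] at hn2 hG2
  set P1 := aeval ψ p1 with hP1d
  set P2 := aeval D.BX p2 with hP2d
  set G2 := aeval D.BX q2 with hG2d
  have cP1 : Commutes D P1 := c.poly p1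
  -- P1 and E
  have hP1E : ∀ x, P1 x ∈ E := by
    intro x
    rw [hE, Module.End.mem_maxGenEigenspace]
    refine ⟨n1, ?_⟩
    have h1 : ψ - α • (1 : Module.End F V) = ψ - algebraMap F _ α := by
      rw [Algebra.algebraMap_eq_smul_one]
    rw [h1, ← Module.End.mul_apply, hn1]; rfl
  have hEP1 : ∀ x ∈ E, P1 x = x := by
    intro x hx
    rw [hE, Module.End.mem_maxGenEigenspace] at hx
    obtain ⟨k, hk⟩ := hx
    have h1 : ψ - α • (1 : Module.End F V) = ψ - algebraMap F _ α := by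
      rw [Algebra.algebraMap_eq_smul_one]
    rw [h1] at hk
    have hid : IsIdempotentElem (1 - P1) := IsIdempotentElem.one_sub hP1
    have hcm : Commute (ψ - algebraMap F (Module.End F V) α) (aeval ψ q1) := by
      have e1 : ψ - algebraMap F (Module.End F V) α = aeval ψ (X - C α) := by simp
      rw [e1]
      change aeval ψ (X - C α) * aeval ψ q1 = aeval ψ q1 * aeval ψ (X - C α)
      rw [← map_mul, ← map_mul, mul_comm]
    have h2 : 1 - P1 = (aeval ψ q1) ^ (k + 1) * (ψ - algebraMap F (Module.End F V) α) ^ (k + 1) := by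
      rw [← hid.pow_succ_eq k, hG1, hcm.mul_pow]
      exact (hcm.pow_pow (k + 1) (k + 1))
    have h3 : (1 - P1) x = 0 := by
      rw [h2, Module.End.mul_apply, pow_succ' (ψ - algebraMap F (Module.End F V) α) k,
        Module.End.mul_apply, hk, map_zero, map_zero]
    rw [LinearMap.sub_apply, Module.End.one_apply, sub_eq_zero] at h3
    exact h3.symm
  -- BX on bigraded pieces
  have bxB : ∀ a j x, x ∈ D.B0 a j → D.BX x ∈ D.B0 a j := by
    intro a j x hx
    rw [D.BX_eq hx]; exact S.bx_mem _ hx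
  have pl : ∀ (p : F[X]) a j x, x ∈ D.B0 a j → aeval D.BX p (D.l x) = D.l (aeval D.BX p x) :=
    fun p a j x hx => poly_comm D.BX D.l (D.B0 a j) (bxB a j)
      (fun x hx => by rw [D.BX_eq (S.l_mem _ _ _ hx), D.BX_eq hx, S.bx_l hx]) p x hx
  have plam : ∀ (p : F[X]) a j x, x ∈ D.B0 a j →
      aeval D.BX p (D.lam x) = D.lam (aeval D.BX p x) :=
    fun p a j x hx => poly_comm D.BX D.lam (D.B0 a j) (bxB a j)
      (fun x hx => by rw [D.BX_eq (S.lam_mem _ _ _ hx), D.BX_eq hx, S.bx_lam hx]) p x hx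
  have pres : ∀ (p : F[X]) a j x, x ∈ D.B0 a j →
      aeval D.BX p (D.res x) = D.res (aeval D.BX p x) :=
    fun p a j x hx => poly_comm D.BX D.res (D.B0 a j) (bxB a j)
      (fun x hx => by rw [D.BX_eq (S.ρ_mem _ _ _ hx), D.BX_eq hx, S.bx_ρ hx]) p x hx
  have pgys : ∀ (p : F[X]) a j x, x ∈ D.B0 a j →
      aeval D.BX p (D.gys x) = D.gys (aeval D.BX p x) :=
    fun p a j x hx => poly_comm D.BX D.gys (D.B0 a j) (bxB a j)
      (fun x hx => by rw [D.BX_eq (S.τ_mem _ _ _ hx), D.BX_eq hx, S.bx_τ hx]) p x hx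
  have pB : ∀ (p : F[X]) a j x, x ∈ D.B0 a j → aeval D.BX p x ∈ D.B0 a j :=
    fun p a j x hx => poly_stable D.BX (D.B0 a j) (bxB a j) p x hx
  have P1B : ∀ a j x, x ∈ D.B0 a j → P1 x ∈ D.B0 a j := by
    intro a j x hx
    exact ⟨by rw [← cP1.g, hx.1, map_smul], by rw [← cP1.h, hx.2, map_smul]⟩
  have hP12 : ∀ (p : F[X]) (x : V), aeval D.BX p (P1 x) = P1 (aeval D.BX p x) := fun p x =>
    poly_comm D.BX P1 ⊤ (fun _ _ => trivial) (fun x _ => (cP1.BX x).symm) p x trivial
  -- P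
  set P := P1 * P2 with hP
  have hPa : ∀ x, P x = P1 (P2 x) := fun _ => rfl
  have hPP : ∀ x, P (P x) = P x := by
    intro x
    rw [hPa, hPa, hP12 p2, ← Module.End.mul_apply P1 P1, hP1, ← Module.End.mul_apply P2 P2, hP2]
  have hPB : ∀ a j x, x ∈ D.B0 a j → P x ∈ D.B0 a j := fun a j x hx =>
    P1B a j _ (pB p2 a j x hx)
  have hPE : ∀ x, P x ∈ E := fun x => hP1E _
  have Pl : ∀ a j x, x ∈ D.B0 a j → P (D.l x) = D.l (P x) := fun a j x hx => by
    rw [hPa, hPa, pl p2 a j x hx, cP1.l]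
  have Plam : ∀ a j x, x ∈ D.B0 a j → P (D.lam x) = D.lam (P x) := fun a j x hx => by
    rw [hPa, hPa, plam p2 a j x hx, cP1.lam]
  have Pres : ∀ a j x, x ∈ D.B0 a j → P (D.res x) = D.res (P x) := fun a j x hx => by
    rw [hPa, hPa, pres p2 a j x hx, cP1.res]
  have Pgys : ∀ a j x, x ∈ D.B0 a j → P (D.gys x) = D.gys (P x) := fun a j x hx => by
    rw [hPa, hPa, pgys p2 a j x hx, cP1.gys]
  have Pd : ∀ (i j : ℤ) (x : ℕ → V), x ∈ LL D.B0 i j →
      dd D.res D.gys (fun t => P (x t)) = fun t => P (dd D.res D.gys x t) := by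
    intro i j x hx
    ext t
    rw [dd_apply, dd_apply, map_add, Pres _ _ _ (hx t).1, Pgys _ _ _ (hx (t + 1)).1]
  have Ppow : ∀ (n : ℕ) (a j : ℤ) (x : V), x ∈ D.B0 a j → P ((D.l ^ n) x) = (D.l ^ n) (P x) := by
    intro n
    induction n with
    | zero => intro a j x _; simp
    | succ n ih =>
      intro a j x hx
      rw [pow_succ]
      change P ((D.l ^ n) (D.l x)) = (D.l ^ n) (D.l (P x))
      rw [ih a (j + 2) _ (S.l_mem _ _ _ hx), Pl _ _ _ hx]
  have S1 := S.sub P Pl Plam Pres Pgys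
  set B : ℤ → ℤ → Submodule F V := fun a j => D.B0 a j ⊓ LinearMap.ker (P - 1) with hB
  have memB : ∀ a j x, x ∈ B a j ↔ x ∈ D.B0 a j ∧ P x = x := by
    intro a j x
    rw [hB, Submodule.mem_inf, ker_sub_one]
  have LLle : ∀ i j x, x ∈ LL B i j → x ∈ LL D.B0 i j := fun i j x hx t => ⟨(hx t).1.1, (hx t).2⟩
  have LLP : ∀ i j x, x ∈ LL D.B0 i j → (fun t => P (x t)) ∈ LL B i j := by
    intro i j x hx t
    refine ⟨(memB _ _ _).mpr ⟨hPB _ _ _ (hx t).1, hPP _⟩, fun h => ?_⟩
    change P (x t) = 0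
    rw [(hx t).2 h, map_zero]
  have LLfix : ∀ i j x, x ∈ LL B i j → (fun t => P (x t)) = x := by
    intro i j x hx
    ext t
    exact ((memB _ _ _).mp (hx t).1).2
  -- Lefschetz complex
  have C : LC (up D.h) (up D.l) (up D.lam) (dd D.res D.gys) (LL B) := by
    refine S1.lc ?_ ?_
    · intro i n x hx hdx hz
      obtain ⟨z, hz, hzx⟩ := hz
      have hx0 := LLle _ _ _ hx
      obtain ⟨z', hz', hz'x⟩ := (hl i n).1 x (D.mem_E1.mpr hx0) hdx
        ⟨z, D.mem_E1.mpr (LLle _ _ _ hz), by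
          rw [D.d_eq, hzx]; ext t; exact up_pow D.l n x t⟩
      refine ⟨fun t => P (z' t), LLP _ _ _ (D.mem_E1.mp hz'), ?_⟩
      rw [Pd _ _ _ (D.mem_E1.mp hz')]
      have : dd D.res D.gys z' = x := hz'x
      rw [this]; exact LLfix _ _ _ hx
    · intro i n y hy hdy
      have hy0 := LLle _ _ _ hy
      obtain ⟨x, hx, hdx, z, hz, hyx⟩ := (hl i n).2 y (D.mem_E1.mpr hy0) hdy
      have hx' := D.mem_E1.mp hx
      have hz' := D.mem_E1.mp hz
      refine ⟨fun t => P (x t), LLP _ _ _ hx', ?_, fun t => P (z t), LLP _ _ _ hz', ?_⟩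
      · rw [Pd _ _ _ hx']
        have : dd D.res D.gys x = 0 := hdx
        rw [this]; ext t; simp
      · rw [Pd _ _ _ hz', ← LLfix _ _ _ hy]
        ext t
        rw [Pi.add_apply, up_pow, hyx, Pi.add_apply, map_add, Ppow _ _ _ _ (hx' t).1]
        rfl
  -- semisimplicity
  have fromB : ∀ (a : ℤ) (b : ℕ) (u : V), 1 ≤ a → u ∈ B a (-(b : ℤ)) → D.lam u = 0 →
      ∃ n : ℕ, a = (n : ℤ) ∧ 1 ≤ n ∧ u ∈ D.prim n b ⊓ E := by
    intro a b u ha hu hlu
    obtain ⟨n, rfl⟩ : ∃ n : ℕ, a = (n : ℤ) := ⟨a.toNat, by omega⟩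
    obtain ⟨hu0, hPu⟩ := (memB _ _ _).mp hu
    refine ⟨n, rfl, by omega, prim_iff.mpr ⟨hu0, hlu⟩, ?_⟩
    rw [← hPu]; exact hPE u
  have boxeq : ∀ (n : ℕ) (x : V), D.box n x = bx D.lam D.res D.gys ((n : ℤ) : F) x := by
    intro n x; unfold Datum.box; push_cast; rfl
  have boxz : ∀ (a : ℤ) (b : ℕ) (u : V), 1 ≤ a → u ∈ B a (-(b : ℤ)) → D.lam u = 0 →
      bx D.lam D.res D.gys (a : F) u = 0 := by
    intro a b u ha hu hlu
    obtain ⟨n, rfl, hn, hu'⟩ := fromB a b u ha hu hlu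
    obtain ⟨hu0, hPu⟩ := (memB _ _ _).mp hu
    rw [← boxeq]
    -- box^n2 u = 0
    have hnil : (D.BX ^ n2) u = 0 := by
      have : u = P2 (P1 u) := by
        rw [hP12 p2]; exact hPu.symm
      rw [this, ← Module.End.mul_apply, hn2]; rfl
    have hit : ∀ k : ℕ, (D.BX ^ k) u ∈ D.prim n b ⊓ E ∧
        (D.BX ^ (k + 1)) u = D.box n ((D.BX ^ k) u) := by
      intro k
      induction k with
      | zero =>
        refine ⟨by simpa using hu', ?_⟩
        simp only [zero_add, pow_one, pow_zero, Module.End.one_apply]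
        rw [boxeq, D.BX_eq hu0]
      | succ k ih =>
        obtain ⟨ih1, ih2⟩ := ih
        have m1 : (D.BX ^ (k + 1)) u ∈ D.prim n b ⊓ E := by
          rw [ih2]
          exact ⟨box_prim ih1.1, maxGen_mem_of_comm _ (c.bx (n : F)) ih1.2⟩
        refine ⟨m1, ?_⟩
        rw [pow_succ', Module.End.mul_apply, boxeq,
          D.BX_eq (a := (n : ℤ)) (j := -(b : ℤ)) (prim_iff.mp m1.1).1]
    have hdown : ∀ k : ℕ, (D.BX ^ (k + 1)) u = 0 → D.BX u = 0 := by
      intro k
      induction k with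
      | zero => intro h; simpa using h
      | succ k ih =>
        intro h
        apply ih
        obtain ⟨m1, m2⟩ := hit k
        obtain ⟨m3, m4⟩ := hit (k + 1)
        rw [m4, m2] at h
        rw [m2]
        exact tame_ss c (ht n b hn) _ m1 h
    have hz : D.BX u = 0 := by
      rcases Nat.eq_zero_or_pos n2 with h0 | h0
      · rw [h0, pow_zero, Module.End.one_apply] at hnil
        rw [hnil, map_zero]
      · obtain ⟨k, hk⟩ : ∃ k, n2 = k + 1 := ⟨n2 - 1, by omega⟩
        rw [hk] at hnil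
        exact hdown k hnil
    rw [boxeq, ← D.BX_eq hu0, hz]
  have bzero : ∀ (a j : ℤ) (x : V), 1 ≤ a → x ∈ B a j → bx D.lam D.res D.gys (a : F) x = 0 := by
    intro a j x ha hx
    have : x ∈ LinearMap.ker (bx D.lam D.res D.gys (a : F)) := by
      apply s4 S1.t (S1.fam a) _ _ _ j hx
      · intro j x hx hk
        rw [LinearMap.mem_ker] at hk ⊢
        rw [S1.bx_l hx, hk, map_zero]
      · intro b u hu hlu
        exact boxz a b u ha hu hlu
    simpa using this
  have van := fun n j => S1.wm C bzero n j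
  -- the acyclic part
  have P1d : ∀ (x : ℕ → V), dd D.res D.gys (fun t => P1 (x t)) = fun t => P1 (dd D.res D.gys x t) := by
    intro x
    ext t
    rw [dd_apply, dd_apply, map_add, cP1.res, cP1.gys]
  have acyc : ∀ (i j : ℤ) (x : ℕ → V), x ∈ LL D.B0 i j → dd D.res D.gys x = 0 →
      ∃ z ∈ LL D.B0 (i - 1) (j - 1), (∀ t, z t ∈ E) ∧
        dd D.res D.gys z = fun t => P1 (x t - P2 (x t)) := by
    intro i j x hx hdx
    have hG : (fun t => G2 (x t)) ∈ LL D.B0 i j := fun t => ⟨pB q2 _ _ _ (hx t).1, fun h => by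
      change G2 (x t) = 0
      rw [(hx t).2 h, map_zero]⟩
    have hdG : dd D.res D.gys (fun t => G2 (x t)) = 0 := by
      ext t
      rw [dd_apply, ← pres q2 _ _ _ (hx t).1, ← pgys q2 _ _ _ (hx (t + 1)).1, ← map_add,
        ← dd_apply, hdx]
      simp
    have hho := S.ho_eq hG
    rw [hdG] at hho
    have hho0 : Sys.ho (dp D.lam D.res) (dp D.lam D.gys) (i + 1) (0 : ℕ → V) = 0 := by
      ext t; simp [Sys.ho]
    rw [hho0, add_zero] at hho
    have hw := S.ho_mem hG
    refine ⟨fun t => P1 (Sys.ho (dp D.lam D.res) (dp D.lam D.gys) i (fun t => G2 (x t)) t), ?_, ?_, ?_⟩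
    · intro t
      refine ⟨P1B _ _ _ (hw t).1, fun h => ?_⟩
      change P1 _ = 0
      rw [(hw t).2 h, map_zero]
    · intro t; exact hP1E _
    · rw [P1d, hho]
      ext t
      have h1 : bx D.lam D.res D.gys ((i + 2 * t : ℤ) : F) (G2 (x t)) = x t - P2 (x t) := by
        rw [← D.BX_eq (hG t).1, ← Module.End.mul_apply, ← hG2]; rfl
      exact congrArg P1 h1
  intro i j
  constructor
  · -- injectivity
    intro x hx hxE hdx hz
    obtain ⟨z, hz, hzx⟩ := hz
    have hx0 := D.mem_E1.mp hx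
    have hz0 := D.mem_E1.mp hz
    obtain ⟨w, hw, hwE, hdw⟩ := acyc (-i) j x hx0 hdx
    obtain ⟨v, hv, hvx⟩ := (van i j).1 (fun t => P (x t)) (LLP _ _ _ hx0) (by
      rw [Pd _ _ _ hx0]
      have : dd D.res D.gys x = 0 := hdx
      rw [this]; ext t; simp) ⟨fun t => P (z t), LLP _ _ _ hz0, by
        rw [Pd _ _ _ hz0]
        ext t
        rw [Sys.shift_pow]
        exact congrArg P (congrFun hzx t)⟩
    refine ⟨w + v, D.mem_E1.mpr (Submodule.add_mem _ hw (LLle _ _ _ hv)), fun t => ?_, ?_⟩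
    · refine Submodule.add_mem _ (hwE t) ?_
      have := ((memB _ _ _).mp (hv t).1).2
      rw [← this]; exact hPE _
    · rw [D.d_eq, map_add, hdw, hvx]
      ext t
      rw [Pi.add_apply, map_sub, ← hPa, hEP1 _ (hxE t)]; abel
  · -- surjectivity
    intro y hy hyE hdy
    have hy0 := D.mem_E1.mp hy
    obtain ⟨w, hw, hwE, hdw⟩ := acyc i j y hy0 hdy
    obtain ⟨x, hx, hdx, v, hv, hyx⟩ := (van i j).2 (fun t => P (y t)) (LLP _ _ _ hy0) (by
      rw [Pd _ _ _ hy0]
      have : dd D.res D.gys y = 0 := hdy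
      rw [this]; ext t; simp)
    have fixE : ∀ (i j : ℤ) (x : ℕ → V), x ∈ LL B i j → ∀ t, x t ∈ E := by
      intro i j x hx t
      have := ((memB _ _ _).mp (hx t).1).2
      rw [← this]; exact hPE _
    refine ⟨x, D.mem_E1.mpr (LLle _ _ _ hx), fixE _ _ _ hx, hdx, v + w,
      D.mem_E1.mpr (Submodule.add_mem _ (LLle _ _ _ hv) hw),
      fun t => Submodule.add_mem _ (fixE _ _ _ hv t) (hwE t), ?_⟩
    rw [D.d_eq, map_add, hdw]
    ext t
    have h1 := congrFun hyx t
    rw [Pi.add_apply, Sys.shift_pow] at h1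
    rw [Pi.add_apply, Pi.add_apply, map_sub, ← hPa, hEP1 _ (hyE t), h1]; abel

end H43.WM
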