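import Pool.Agent.H43.WM.Sys

/-! Fitting decompositions and the double commutator. -/

namespace H43.WM

open Polynomial

variable {F V : Type*} [Field F] [AddCommGroup V] [Module F V]

theorem fit [FiniteDimensional F V] (ψ : Module.End F V) (α : F) :
    ∃ p q : F[X], (aeval ψ p * aeval ψ p = aeval ψ p) ∧
      (∃ n : ℕ, (ψ - algebraMap F _ α) ^ n * aeval ψ p = 0) ∧
      1 - aeval ψ p = (ψ - algebraMap F _ α) * aeval ψ q := by
  have hne : ψ.charpoly ≠ 0 := ψ.charpoly_monic.ne_zero
  obtain ⟨r, hr, hnd⟩ := exists_eq_pow_rootMultiplicity_mul_and_not_dvd ψ.charpoly hne α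
  set m := rootMultiplicity α ψ.charpoly with hm
  have hco : IsCoprime ((X - C α) ^ (m + 1)) r :=
    IsCoprime.pow_left ((irreducible_X_sub_C α).coprime_iff_not_dvd.mpr hnd)
  obtain ⟨a, b, hab⟩ := hco
  have hch : aeval ψ ψ.charpoly = 0 := LinearMap.aeval_self_charpoly ψ
  have hX : aeval ψ (X - C α) = ψ - algebraMap F _ α := by simp
  refine ⟨b * r, a * (X - C α) ^ m, ?_, ⟨m + 1, ?_⟩, ?_⟩
  · have h1 : b * r * (b * r) = b * r - (a * b * (X - C α)) * ψ.charpoly := by
      rw [hr]
      linear_combination (b * r) * hab
    rw [← map_mul, h1, map_sub, map_mul (aeval ψ) _ ψ.charpoly, hch, mul_zero, sub_zero]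
  · rw [← hX, ← map_pow, ← map_mul]
    have h1 : (X - C α) ^ (m + 1) * (b * r) = (b * (X - C α)) * ψ.charpoly := by
      rw [hr]; ring
    rw [h1, map_mul (aeval ψ) _ ψ.charpoly, hch, mul_zero]
  · rw [← hX, ← map_mul]
    have h1 : (1 : F[X]) - b * r = (X - C α) * (a * (X - C α) ^ m) := by
      linear_combination -hab
    rw [← h1, map_sub, map_one]

/-- Polynomials in `θ` commute with `S` on a `θ`-stable submodule where `θ` does. -/
theorem poly_comm (θ S : Module.End F V) (U : Submodule F V) (hU : ∀ x ∈ U, θ x ∈ U)
    (hS : ∀ x ∈ U, θ (S x) = S (θ x)) (p : F[X]) (x : V) (hx : x ∈ U) :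
    aeval θ p (S x) = S (aeval θ p x) := by
  have hpow : ∀ (n : ℕ) (x : V), x ∈ U → (θ ^ n) x ∈ U ∧ (θ ^ n) (S x) = S ((θ ^ n) x) := by
    intro n
    induction n with
    | zero => intro x hx; simpa using hx
    | succ n ih =>
      intro x hx
      rw [pow_succ, Module.End.mul_apply, Module.End.mul_apply, hS x hx]
      exact ih (θ x) (hU x hx)
  induction p using Polynomial.induction_on' with
  | add p q hp hq => simp only [map_add, LinearMap.add_apply, hp, hq]
  | monomial n c =>
    simp only [aeval_monomial, Module.End.mul_apply, Module.algebraMap_end_apply,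
      (hpow n x hx).2, map_smul]

theorem poly_stable (θ : Module.End F V) (U : Submodule F V) (hU : ∀ x ∈ U, θ x ∈ U)
    (p : F[X]) (x : V) (hx : x ∈ U) : aeval θ p x ∈ U := by
  have hpow : ∀ (n : ℕ) (x : V), x ∈ U → (θ ^ n) x ∈ U := by
    intro n
    induction n with
    | zero => intro x hx; simpa using hx
    | succ n ih =>
      intro x hx
      rw [pow_succ, Module.End.mul_apply]
      exact ih (θ x) (hU x hx)
  induction p using Polynomial.induction_on' with
  | add p q hp hq =>
    simp only [map_add, LinearMap.add_apply]; exact Submodule.add_mem _ hp hq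
  | monomial n c =>
    simp only [aeval_monomial, Module.End.mul_apply, Module.algebraMap_end_apply]
    exact Submodule.smul_mem _ _ (hpow n x hx)

attribute [local instance 100] LieRing.ofAssociativeRing

/-- The double commutator of `lam` with an operator of weight one commuting with `l` vanishes. -/
theorem double [CharZero F] [FiniteDimensional F V] {h l lam : Module.End F V}
    (t : Trip h l lam) (s : Module.End F V)
    (hs : ∀ x, h (s x) = s (h x) + s x) (ls : ∀ x, l (s x) = s (l x)) (x : V) :
    lam (dp lam s x) = dp lam s (lam x) := by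
  by_cases h0 : h = 0
  · have : lam = 0 := by
      ext y
      have := t.hlam y
      rw [h0] at this
      simp only [LinearMap.zero_apply, map_zero, zero_sub] at this
      have h2 : (2 : F) • lam y = 0 := by rw [← neg_eq_zero]; exact this.symm
      simpa using h2
    rw [this]; simp
  by_cases s0 : s = 0
  · rw [s0]; simp [dp]
  have tr : IsSl2Triple h l lam :=
    { h_ne_zero := h0
      lie_e_f := by
        ext y
        rw [Ring.lie_def, LinearMap.sub_apply, Module.End.mul_apply, Module.End.mul_apply, t.ll]
        abel
      lie_h_e_nsmul := by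
        ext y
        rw [Ring.lie_def, LinearMap.sub_apply, Module.End.mul_apply, Module.End.mul_apply, t.hl,
          LinearMap.smul_apply, two_smul, two_smul]
        abel
      lie_h_f_nsmul := by
        ext y
        rw [Ring.lie_def, LinearMap.sub_apply, Module.End.mul_apply, Module.End.mul_apply, t.hlam,
          LinearMap.neg_apply, LinearMap.smul_apply, two_smul, two_smul]
        abel }
  have P : tr.HasPrimitiveVectorWith s (1 : F) :=
    { ne_zero := s0
      lie_h := by
        ext y
        rw [Ring.lie_def, LinearMap.sub_apply, Module.End.mul_apply, Module.End.mul_apply, hs,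
          one_smul]
        abel
      lie_e := by
        ext y
        rw [Ring.lie_def, LinearMap.sub_apply, Module.End.mul_apply, Module.End.mul_apply, ls,
          LinearMap.zero_apply]
        abel }
  have key := P.pow_toEnd_f_eq_zero_of_eq_nat (n := 1) (by simp)
  have k2 := congrArg (fun f : Module.End F V => f x) key
  simp only [pow_succ, pow_zero, one_mul, Module.End.mul_apply, LieModule.toEnd_apply_apply,
    Ring.lie_def, LinearMap.zero_apply] at k2
  have k3 : lam (dp lam s x) - dp lam s (lam x) = 0 := by
    rw [← k2]
    simp only [dp_apply, LinearMap.sub_apply, Module.End.mul_apply, map_sub]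
  exact sub_eq_zero.mp k3

end H43.WM
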