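import Pool.Agent.H43.WM.Rel

/-! A graded sl2-structure on subquotients given by a correspondence. -/

namespace H43.WM

variable {F W : Type*} [Field F] [CharZero F] [AddCommGroup W] [Module F W]

/-- Factor a linear map through a quotient on a subspace. -/
theorem exists_factor {F A B C : Type*} [Field F] [AddCommGroup A] [Module F A] [AddCommGroup B]
    [Module F B] [AddCommGroup C] [Module F C] (ψ : A →ₗ[F] B) (φ : A →ₗ[F] C)
    (h : ∀ a, ψ a = 0 → φ a = 0) : ∃ χ : B →ₗ[F] C, ∀ a, χ (ψ a) = φ a := by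
  obtain ⟨s, hs⟩ := ψ.rangeRestrict.exists_rightInverse_of_surjective
    (LinearMap.range_rangeRestrict ψ)
  obtain ⟨χ, hχ⟩ := LinearMap.exists_extend (φ.comp s)
  refine ⟨χ, fun a => ?_⟩
  have h1 : χ (ψ a) = φ (s (ψ.rangeRestrict a)) := by
    have := LinearMap.congr_fun hχ (ψ.rangeRestrict a)
    exact this
  rw [h1]
  have h2 : ψ (s (ψ.rangeRestrict a) - a) = 0 := by
    have h3 := LinearMap.congr_fun hs (ψ.rangeRestrict a)
    have h4 := congrArg Subtype.val h3
    rw [map_sub, sub_eq_zero]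
    exact h4
  have h5 := h _ h2
  rw [map_sub, sub_eq_zero] at h5
  exact h5

theorem quot_sl2 (N : Module.End F W) (f : ℤ → Module.End F W) (U D : ℤ → Submodule F W)
    (NU : ∀ i x, x ∈ U i → N x ∈ U (i + 2))
    (ND : ∀ i x, x ∈ D i → N x ∈ D (i + 2))
    (fU : ∀ i x, x ∈ U i → ∃ y ∈ U (i - 2), f i x - y ∈ D (i - 2))
    (fUD : ∀ i x, x ∈ U i → x ∈ D i → f i x ∈ D (i - 2))
    (Nf : ∀ i x, x ∈ U i → N (f i x) = f (i + 2) (N x) + (i : F) • x)
    (bdd : ∃ R : ℕ, ∀ i : ℤ, (R : ℤ) < |i| → ∀ x ∈ U i, x = 0) (n : ℕ) :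
    (∀ x ∈ U (-(n : ℤ)), (N ^ n) x ∈ D n → x ∈ D (-(n : ℤ))) ∧
    (∀ y ∈ U n, ∃ x ∈ U (-(n : ℤ)), y - (N ^ n) x ∈ D n) := by
  -- the operators
  have hN : ∀ i : ℤ, D (i - 2) ≤ (D i).comap N := by
    intro i x hx
    have := ND _ _ hx
    rwa [sub_add_cancel] at this
  have hφ : ∀ i : ℤ, ∃ χ : (W ⧸ D (i + 2)) →ₗ[F] (W ⧸ D i),
      ∀ x ∈ U (i + 2), χ ((D (i + 2)).mkQ x) = (D i).mkQ (f (i + 2) x) := by
    intro i
    obtain ⟨χ, hχ⟩ := exists_factor ((D (i + 2)).mkQ.comp (U (i + 2)).subtype)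
      ((D i).mkQ.comp ((f (i + 2)).comp (U (i + 2)).subtype)) (by
        rintro ⟨x, hx⟩ h0
        simp only [LinearMap.comp_apply, Submodule.subtype_apply, Submodule.mkQ_apply,
          Submodule.Quotient.mk_eq_zero] at h0 ⊢
        have := fUD _ _ hx h0
        rwa [add_sub_cancel_right] at this)
    exact ⟨χ, fun x hx => hχ ⟨x, hx⟩⟩
  choose φ hφ using hφ
  let l : Module.End F ((i : ℤ) → W ⧸ D i) :=
    { toFun := fun x i => (D (i - 2)).mapQ (D i) N (hN i) (x (i - 2))
      map_add' := fun x y => by ext i; simp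
      map_smul' := fun c x => by ext i; simp }
  let lam : Module.End F ((i : ℤ) → W ⧸ D i) :=
    { toFun := fun x i => φ i (x (i + 2))
      map_add' := fun x y => by ext i; simp
      map_smul' := fun c x => by ext i; simp }
  have l_ap : ∀ x i, l x i = (D (i - 2)).mapQ (D i) N (hN i) (x (i - 2)) := fun _ _ => rfl
  have lam_ap : ∀ x i, lam x i = φ i (x (i + 2)) := fun _ _ => rfl
  -- representation relation
  let rep : ℤ → W → ((i : ℤ) → W ⧸ D i) → Prop := fun j u x =>
    ∀ i, (i = j → x i = (D i).mkQ u) ∧ (i ≠ j → x i = 0)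
  have rep_l : ∀ j u x, rep j u x → rep (j + 2) (N u) (l x) := by
    intro j u x h i
    refine ⟨fun hi => ?_, fun hi => ?_⟩
    · rw [l_ap, (h (i - 2)).1 (by omega)]; rfl
    · rw [l_ap, (h (i - 2)).2 (by omega), map_zero]
  have rep_pow : ∀ (k : ℕ) j u x, rep j u x → rep (j + 2 * k) ((N ^ k) u) ((l ^ k) x) := by
    intro k
    induction k with
    | zero => intro j u x h; simpa using h
    | succ k ih =>
      intro j u x h
      have := rep_l _ _ _ (ih j u x h)
      rw [pow_succ', pow_succ', Module.End.mul_apply, Module.End.mul_apply]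
      have e : j + 2 * ((k + 1 : ℕ) : ℤ) = j + 2 * (k : ℤ) + 2 := by push_cast; ring
      rw [e]; exact this
  let S : ℤ → Submodule F ((i : ℤ) → W ⧸ D i) := fun j =>
    { carrier := {x | ∃ u ∈ U j, rep j u x}
      add_mem' := by
        rintro x y ⟨u, hu, hx⟩ ⟨v, hv, hy⟩
        refine ⟨u + v, Submodule.add_mem _ hu hv, fun i => ⟨fun hi => ?_, fun hi => ?_⟩⟩
        · rw [Pi.add_apply, (hx i).1 hi, (hy i).1 hi, map_add]
        · rw [Pi.add_apply, (hx i).2 hi, (hy i).2 hi, add_zero]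
      zero_mem' := ⟨0, Submodule.zero_mem _, fun i => ⟨fun _ => by simp, fun _ => rfl⟩⟩
      smul_mem' := by
        rintro c x ⟨u, hu, hx⟩
        refine ⟨c • u, Submodule.smul_mem _ _ hu, fun i => ⟨fun hi => ?_, fun hi => ?_⟩⟩
        · rw [Pi.smul_apply, (hx i).1 hi, map_smul]
        · rw [Pi.smul_apply, (hx i).2 hi, smul_zero] }
  have memS : ∀ j x, x ∈ S j ↔ ∃ u ∈ U j, rep j u x := fun _ _ => Iff.rfl
  have gf : GF l lam S :=
    { l_mem := by
        intro j x hx
        obtain ⟨u, hu, h⟩ := (memS _ _).mp hx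
        exact (memS _ _).mpr ⟨N u, NU _ _ hu, rep_l _ _ _ h⟩
      lam_mem := by
        intro j x hx
        obtain ⟨u, hu, h⟩ := (memS _ _).mp hx
        obtain ⟨y, hy, hyD⟩ := fU j u hu
        refine (memS _ _).mpr ⟨y, hy, fun i => ⟨fun hi => ?_, fun hi => ?_⟩⟩
        · have e : i + 2 = j := by omega
          rw [lam_ap, (h (i + 2)).1 e, hφ i u (by rw [e]; exact hu), e]
          rw [← sub_eq_zero, ← map_sub, Submodule.mkQ_apply, Submodule.Quotient.mk_eq_zero]
          rw [hi]; exact hyD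
        · rw [lam_ap, (h (i + 2)).2 (by omega), map_zero]
      ll := by
        intro j x hx
        obtain ⟨u, hu, h⟩ := (memS _ _).mp hx
        ext i
        rw [Pi.add_apply, Pi.smul_apply, l_ap, lam_ap, lam_ap]
        by_cases hi : i = j
        · have e1 : i - 2 + 2 = j := by omega
          have e2 := rep_l _ _ _ h (i + 2)
          rw [(h _).1 e1, hφ (i - 2) u (by rw [e1]; exact hu), e2.1 (by omega), (h i).1 hi,
            hφ i (N u) (by have := NU _ _ hu; rw [hi]; exact this)]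
          rw [Submodule.mkQ_apply, Submodule.mapQ_apply, e1, Nf j u hu, hi]
          rfl
        · have e2 := rep_l _ _ _ h (i + 2)
          rw [(h (i - 2 + 2)).2 (by omega), e2.2 (by omega), (h i).2 hi]
          simp
      bdd := by
        obtain ⟨R, hR⟩ := bdd
        refine ⟨R, fun j hj x hx => ?_⟩
        obtain ⟨u, hu, h⟩ := (memS _ _).mp hx
        ext i
        by_cases hi : i = j
        · rw [(h i).1 hi, hR j hj u hu]; simp
        · rw [(h i).2 hi]; rfl }
  have single : ∀ j u, u ∈ U j → ∃ x ∈ S j, rep j u x := by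
    intro j u hu
    classical
    refine ⟨fun i => if i = j then (D i).mkQ u else 0, ?_, ?_⟩
    · refine (memS _ _).mpr ⟨u, hu, fun i => ⟨fun hi => by simp [hi], fun hi => by simp [hi]⟩⟩
    · exact fun i => ⟨fun hi => by simp [hi], fun hi => by simp [hi]⟩
  have en : -(n : ℤ) + 2 * (n : ℤ) = n := by ring
  constructor
  · intro x hx h0
    obtain ⟨X, hX, hrep⟩ := single _ x hx
    have h1 := rep_pow n _ _ _ hrep
    rw [en] at h1
    have h2 : (l ^ n) X = 0 := by
      ext i
      by_cases hi : i = n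
      · rw [(h1 i).1 hi, Submodule.mkQ_apply, hi]
        exact (Submodule.Quotient.mk_eq_zero _).mpr h0
      · rw [(h1 i).2 hi]; rfl
    have h3 := gf.s1 n hX h2
    have h4 := (hrep (-(n : ℤ))).1 rfl
    rw [h3, Pi.zero_apply, Submodule.mkQ_apply] at h4
    exact (Submodule.Quotient.mk_eq_zero _).mp h4.symm
  · intro y hy
    obtain ⟨Y, hY, hrepY⟩ := single _ y hy
    obtain ⟨X, hX, hXY⟩ := gf.s2 n hY
    obtain ⟨x, hx, hrep⟩ := (memS _ _).mp hX
    refine ⟨x, hx, ?_⟩
    have h1 := rep_pow n _ _ _ hrep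
    rw [en, hXY] at h1
    have h2 := (h1 n).1 rfl
    rw [(hrepY n).1 rfl, ← sub_eq_zero, ← map_sub, Submodule.mkQ_apply] at h2
    exact (Submodule.Quotient.mk_eq_zero _).mp h2

end H43.WM
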