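import Pool.Agent.H43.WM.Comm
import Pool.Agent.H43.WM.Quot

/-! The weight-monodromy property for systems whose harmonic operator vanishes for `a ≥ 1`. -/

namespace H43.WM

variable {F V : Type*} [Field F] [CharZero F] [AddCommGroup V] [Module F V]

namespace Sys

variable {h l lam ρ τ : Module.End F V} {B : ℤ → ℤ → Submodule F V}

/-- Monodromy: the shift. -/
def shift (F V : Type*) [Field F] [AddCommGroup V] [Module F V] : Module.End F (ℕ → V) where
  toFun x t := x (t + 1)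
  map_add' x y := rfl
  map_smul' c x := rfl

/-- The lowering operator of the sl2-triple of `shift`. -/
def fo (F V : Type*) [Field F] [AddCommGroup V] [Module F V] (i : ℤ) :
    Module.End F (ℕ → V) where
  toFun x t := ((t : F) * ((i + t - 1 : ℤ) : F)) • x (t - 1)
  map_add' x y := by ext t; simp
  map_smul' c x := by ext t; simp only [Pi.smul_apply, RingHom.id_apply, smul_comm c]

/-- The operator `bx` on `E_1`. -/
def bxl (lam ρ τ : Module.End F V) (i : ℤ) : Module.End F (ℕ → V) where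
  toFun x t := bx lam ρ τ ((i + 2 * t : ℤ) : F) (x t)
  map_add' x y := by ext t; simp
  map_smul' c x := by ext t; simp

omit [CharZero F] in
theorem shift_apply (x : ℕ → V) (t : ℕ) : shift F V x t = x (t + 1) := rfl

omit [CharZero F] in
theorem fo_apply (i : ℤ) (x : ℕ → V) (t : ℕ) :
    fo F V i x t = ((t : F) * ((i + t - 1 : ℤ) : F)) • x (t - 1) := rfl

omit [CharZero F] in
theorem bxl_apply (i : ℤ) (x : ℕ → V) (t : ℕ) :
    bxl lam ρ τ i x t = bx lam ρ τ ((i + 2 * t : ℤ) : F) (x t) := rfl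

omit [CharZero F] in
theorem shift_pow (n : ℕ) (x : ℕ → V) (t : ℕ) : (shift F V ^ n) x t = x (t + n) := by
  induction n generalizing x with
  | zero => simp
  | succ n ih =>
    rw [pow_succ, Module.End.mul_apply, ih, shift_apply]; rfl

omit [CharZero F] in
theorem shift_mem {i j : ℤ} {x : ℕ → V} (hx : x ∈ LL B i j) : shift F V x ∈ LL B (i + 2) j := by
  intro t
  rw [shift_apply]
  exact ⟨cm (hx (t + 1)).1 (by push_cast; ring) rfl,
    fun ht => (hx (t + 1)).2 (by push_cast; omega)⟩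

omit [CharZero F] in
theorem fo_mem {i j : ℤ} {x : ℕ → V} (hx : x ∈ LL B i j) : fo F V i x ∈ LL B (i - 2) j := by
  intro t
  rw [fo_apply]
  rcases t with _ | t
  · simp only [Nat.cast_zero, zero_mul, zero_smul]
    exact ⟨Submodule.zero_mem _, fun _ => trivial⟩
  · rw [Nat.add_sub_cancel]
    refine ⟨Submodule.smul_mem _ _ (cm (hx t).1 (by push_cast; ring) rfl), fun ht => ?_⟩
    rcases lt_or_eq_of_le (show i + (t : ℤ) ≤ 0 by push_cast at ht; omega) with h1 | h1
    · rw [(hx t).2 h1, smul_zero]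
    · have : (i + ((t + 1 : ℕ) : ℤ) - 1 : ℤ) = 0 := by push_cast; omega
      rw [this]; simp

omit [CharZero F] in
theorem shift_fo (i : ℤ) (x : ℕ → V) :
    shift F V (fo F V i x) = fo F V (i + 2) (shift F V x) + (i : F) • x := by
  ext t
  rw [Pi.add_apply, Pi.smul_apply, shift_apply, fo_apply, fo_apply, shift_apply]
  rcases t with _ | t
  · simp
  · simp only [Nat.add_sub_cancel]
    push_cast; module

omit [CharZero F] in
theorem shift_d (x : ℕ → V) : dd ρ τ (shift F V x) = shift F V (dd ρ τ x) := rfl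

omit [CharZero F] in
theorem shift_bxl (i : ℤ) (x : ℕ → V) :
    bxl lam ρ τ (i + 2) (shift F V x) = shift F V (bxl lam ρ τ i x) := by
  ext t
  rw [shift_apply, bxl_apply, bxl_apply, shift_apply]
  congr 2
  push_cast; ring

omit [CharZero F] in
/-- `[f, d] = δ`. -/
theorem fo_d (i : ℤ) (x : ℕ → V) :
    fo F V (i + 1) (dd ρ τ x) = dd ρ τ (fo F V i x) + ho ρ τ i x := by
  ext t
  rw [Pi.add_apply, dd_apply, fo_apply, fo_apply, fo_apply]
  unfold ho
  rcases t with _ | t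
  · simp only [dd_apply, Nat.cast_zero, zero_mul, zero_smul, map_zero, zero_add, map_smul,
      Nat.add_sub_cancel, zero_sub, Nat.cast_one, one_mul]
    push_cast; module
  · simp only [dd_apply, Nat.add_sub_cancel, map_smul]
    push_cast; module

omit [CharZero F] in
theorem ho_mem' (S : Sys h l lam ρ τ B) {i j : ℤ} {x : ℕ → V} (hx : x ∈ LL B i j) :
    ho ρ τ i x ∈ LL B (i - 1) (j + 1) := by
  have h1 := fo_d (ρ := ρ) (τ := τ) i x
  have h2 : ho ρ τ i x = fo F V (i + 1) (dd ρ τ x) - dd ρ τ (fo F V i x) := by rw [h1]; abel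
  rw [h2]
  refine Submodule.sub_mem _ ?_ ?_
  · have := fo_mem (S.LL_d hx)
    exact cast_mem _ _ this (by ring) rfl
  · have := S.LL_d (fo_mem hx)
    exact cast_mem _ _ this (by ring) rfl

omit [CharZero F] in
theorem LL_d' (S : Sys h l lam ρ τ B) {i j : ℤ} {x : ℕ → V} (hx : x ∈ LL B i j) :
    dd (dp lam ρ) (dp lam τ) x ∈ LL B (i + 1) (j - 1) := by
  intro t
  have h1 := hx t
  have h2 := hx (t + 1)
  refine ⟨?_, ?_⟩
  · rw [dd_apply]
    exact Submodule.add_mem _ (cm (S.ρ'_mem h1.1) (by ring) rfl)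
      (cm (S.τ'_mem h2.1) (by push_cast; ring) rfl)
  · intro ht
    rw [dd_apply, h1.2 (by omega), h2.2 (by push_cast; omega)]; simp

/-- `d' δ' + δ' d' = - bx`. -/
theorem ho_eq' (S : Sys h l lam ρ τ B) {i j : ℤ} {x : ℕ → V} (hx : x ∈ LL B i j) :
    dd (dp lam ρ) (dp lam τ) (ho ρ τ i x) + ho ρ τ (i + 1) (dd (dp lam ρ) (dp lam τ) x)
      = - bxl lam ρ τ i x := by
  ext t
  have hB := hx t
  have e0 : bx lam ρ τ ((i + 2 * t : ℤ) : F) (x t) =
      τ (dp lam ρ (x t)) - dp lam τ (ρ (x t))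
        - ((i + 2 * t : ℤ) : F) • (ρ (dp lam τ (x t)) + dp lam τ (ρ (x t))) := rfl
  have rel : ((i + t : ℤ) : F) • (dp lam ρ (τ (x t)) + ρ (dp lam τ (x t)) + dp lam τ (ρ (x t))
      + τ (dp lam ρ (x t))) = 0 := by
    rcases le_or_gt 1 (i + 2 * (t : ℤ)) with h1 | h1
    · rw [S.R1 h1 hB.1, smul_zero]
    · rcases lt_or_ge (i + (t : ℤ)) 0 with h2 | h2
      · rw [hB.2 h2]; simp
      · have h3 : i + (t : ℤ) = 0 := by omega
        rw [h3]; simp
  have hρ1 : ∀ y, ρ (dp lam ρ y) = - dp lam ρ (ρ y) := fun y => by rw [S.ρ'ρ, neg_neg]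
  have hτ1 : ∀ y, τ (dp lam τ y) = - dp lam τ (τ y) := fun y => by rw [S.τ'τ, neg_neg]
  rw [Pi.neg_apply, bxl_apply, e0, Pi.add_apply, dd_apply]
  unfold ho
  rcases t with _ | t
  · simp only [dd_apply, map_add, map_sub, map_smul, Nat.cast_zero, zero_smul, zero_sub, map_neg,
      Nat.cast_one, hτ1, smul_add, Nat.zero_add, Nat.zero_sub] at rel ⊢
    push_cast at rel ⊢
    linear_combination (norm := module) (-1 : F) • rel
  · simp only [dd_apply, map_add, map_sub, map_smul, hτ1, hρ1, smul_add,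
      Nat.add_sub_cancel, Nat.cast_add, Nat.cast_one] at rel ⊢
    push_cast at rel ⊢
    linear_combination (norm := module) (-1 : F) • rel

/-- **Weight-monodromy from `bx = 0` for `a ≥ 1`.** -/
theorem wm (S : Sys h l lam ρ τ B)
    (C : LC (up h) (up l) (up lam) (dd ρ τ) (LL B))
    (hb : ∀ a j x, 1 ≤ a → x ∈ B a j → bx lam ρ τ (a : F) x = 0) (n : ℕ) (j : ℤ) :
    (∀ x ∈ LL B (-(n : ℤ)) j, dd ρ τ x = 0 →
      (∃ z ∈ LL B ((n : ℤ) - 1) (j - 1), dd ρ τ z = (shift F V ^ n) x) →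
        ∃ z ∈ LL B (-(n : ℤ) - 1) (j - 1), dd ρ τ z = x) ∧
    (∀ y ∈ LL B (n : ℤ) j, dd ρ τ y = 0 →
      ∃ x ∈ LL B (-(n : ℤ)) j, dd ρ τ x = 0 ∧
        ∃ z ∈ LL B ((n : ℤ) - 1) (j - 1), y = (shift F V ^ n) x + dd ρ τ z) := by
  rcases Nat.eq_zero_or_pos n with hn | hn
  · subst hn
    constructor
    · intro x hx hdx hz
      obtain ⟨z, hz, hzx⟩ := hz
      exact ⟨z, by simpa using hz, by simpa using hzx⟩
    · intro y hy hdy
      exact ⟨y, by simpa using hy, hdy, 0, Submodule.zero_mem _, by simp⟩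
  -- notation
  set d := dd ρ τ with hd
  set d' := dp (up lam) d with hd'
  have d'_eq : d' = dd (dp lam ρ) (dp lam τ) := by rw [hd', hd, dp_up]
  -- box on LL
  have bz : ∀ {i j : ℤ} {x : ℕ → V}, i ≠ 0 → x ∈ LL B i j → bxl lam ρ τ i x = 0 := by
    intro i j x hi hx
    ext t
    rw [bxl_apply, Pi.zero_apply]
    rcases le_or_gt 1 (i + 2 * (t : ℤ)) with h1 | h1
    · exact hb _ _ _ h1 (hx t).1
    · rw [(hx t).2 (by omega), map_zero]
  have bz0 : ∀ {j : ℤ} {x : ℕ → V} (t : ℕ), 1 ≤ t → x ∈ LL B 0 j → bxl lam ρ τ 0 x t = 0 := by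
    intro j x t ht hx
    rw [bxl_apply]
    exact hb _ _ _ (by omega) (hx t).1
  have bmem : ∀ {i j : ℤ} {x : ℕ → V}, x ∈ LL B i j → bxl lam ρ τ i x ∈ LL B i j := by
    intro i j x hx t
    refine ⟨S.bx_mem _ (hx t).1, fun h => ?_⟩
    rw [bxl_apply, (hx t).2 h, map_zero]
  have bd : ∀ {i j : ℤ} {x : ℕ → V}, x ∈ LL B i j →
      bxl lam ρ τ (i + 1) (d x) = d (bxl lam ρ τ i x) := by
    intro i j x hx
    exact (S.bx_d hx).symm
  have blam : ∀ {i j : ℤ} {x : ℕ → V}, x ∈ LL B i j →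
      bxl lam ρ τ i (up lam x) = up lam (bxl lam ρ τ i x) := by
    intro i j x hx
    ext t
    exact S.bx_lam (hx t).1
  have bd' : ∀ {i j : ℤ} {x : ℕ → V}, x ∈ LL B i j →
      bxl lam ρ τ (i + 1) (d' x) = d' (bxl lam ρ τ i x) := by
    intro i j x hx
    rw [hd', dp_apply, dp_apply, map_sub, blam (S.LL_d hx), bd hx, bd ((C.fam i).lam_mem _ _ hx),
      blam hx]
  have bN : ∀ (i : ℤ) (x : ℕ → V),
      bxl lam ρ τ (i + 2) (shift F V x) = shift F V (bxl lam ρ τ i x) := fun i x => shift_bxl i x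
  have Nb : ∀ {i j : ℤ} {x : ℕ → V}, x ∈ LL B i j → shift F V (bxl lam ρ τ i x) = 0 := by
    intro i j x hx
    by_cases hi : i = 0
    · subst hi
      ext t
      rw [shift_apply]; exact bz0 (t + 1) (by omega) hx
    · rw [bz hi hx, map_zero]
  have fb : ∀ {i j : ℤ} {x : ℕ → V}, x ∈ LL B i j → fo F V i (bxl lam ρ τ i x) = 0 := by
    intro i j x hx
    by_cases hi : i = 0
    · subst hi
      ext t
      rw [fo_apply, Pi.zero_apply]
      rcases t with _ | _ | t
      · simp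
      · simp
      · rw [bz0 (t + 1 + 1 - 1) (by omega) hx, smul_zero]
    · rw [bz hi hx, map_zero]
  have bI : ∀ {i : ℤ} {x : ℕ → V}, x ∈ LC.I (up lam) d (LL B) i j → bxl lam ρ τ i x = 0 := by
    intro i x hx
    by_cases hi : i = 0
    · subst hi
      obtain ⟨a, ha, b, hb', rfl⟩ := LC.mem_I.mp hx
      have e1 := bd ha
      have e2 := bd' hb'
      rw [sub_add_cancel] at e1 e2
      rw [map_add, e1, ← hd', e2, bz (by norm_num) ha, bz (by norm_num) hb', map_zero, map_zero,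
        add_zero]
    · exact bz hi (C.I_le hx)
  -- families
  set U : ℤ → Submodule F (ℕ → V) := fun i =>
    LC.K (up lam) d (LL B) i j ⊓ LinearMap.ker (bxl lam ρ τ i) with hU
  set DD : ℤ → Submodule F (ℕ → V) := fun i =>
    LC.I (up lam) d (LL B) i j ⊔ (LL B i j).map (bxl lam ρ τ i) with hDD
  have memU : ∀ i x, x ∈ U i ↔ (x ∈ LL B i j ∧ d x = 0 ∧ d' x = 0) ∧ bxl lam ρ τ i x = 0 := by
    intro i x
    rw [hU, Submodule.mem_inf, LC.mem_K, LinearMap.mem_ker]
  have memD : ∀ i x, x ∈ DD i ↔ ∃ m ∈ LC.I (up lam) d (LL B) i j, ∃ z ∈ LL B i j,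
      x = m + bxl lam ρ τ i z := by
    intro i x
    rw [hDD, Submodule.mem_sup]
    constructor
    · rintro ⟨m, hm, w, hw, rfl⟩
      obtain ⟨z, hz, rfl⟩ := Submodule.mem_map.mp hw
      exact ⟨m, hm, z, hz, rfl⟩
    · rintro ⟨m, hm, z, hz, rfl⟩
      exact ⟨m, hm, _, Submodule.mem_map_of_mem hz, rfl⟩
  have D_of_I : ∀ i x, x ∈ LC.I (up lam) d (LL B) i j → x ∈ DD i := fun i x hx =>
    (memD i x).mpr ⟨x, hx, 0, Submodule.zero_mem _, by simp⟩
  have key := quot_sl2 (F := F) (shift F V) (fo F V) U DD ?_ ?_ ?_ ?_ ?_ ?_ n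
  · obtain ⟨k1, k2⟩ := key
    have hI_of_D : ∀ (i : ℤ) x, i ≠ 0 → x ∈ DD i → x ∈ LC.I (up lam) d (LL B) i j := by
      intro i x hi hx
      obtain ⟨m, hm, z, hz, rfl⟩ := (memD i x).mp hx
      rw [bz hi hz, add_zero]; exact hm
    have hn1 : (-(n : ℤ)) ≠ 0 := by omega
    have hn2 : (n : ℤ) ≠ 0 := by omega
    constructor
    · intro x hx hdx hz
      obtain ⟨z, hz, hzx⟩ := hz
      obtain ⟨k, hk, w, hw, rfl⟩ := C.HR hx hdx
      obtain ⟨hkL, hkd, hkd'⟩ := LC.mem_K.mp hk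
      have hkU : k ∈ U (-(n : ℤ)) := (memU _ _).mpr ⟨⟨hkL, hkd, hkd'⟩, bz hn1 hkL⟩
      have hNw : ∀ m : ℕ, (shift F V ^ m) w ∈ LL B (-(n : ℤ) - 1 + 2 * m) (j - 1) := by
        intro m
        induction m with
        | zero => simpa using hw
        | succ m ih =>
          rw [pow_succ', Module.End.mul_apply]
          exact cast_mem _ _ (shift_mem ih) (by push_cast; ring) rfl
      have hdN : ∀ (m : ℕ) (w : ℕ → V), d ((shift F V ^ m) w) = (shift F V ^ m) (d w) := by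
        intro m
        induction m with
        | zero => intro w; simp
        | succ m ih =>
          intro w
          rw [pow_succ, Module.End.mul_apply, Module.End.mul_apply, ih]; rfl
      have hkn : (shift F V ^ n) k ∈ DD n := by
        apply D_of_I
        refine LC.mem_I.mpr ⟨z - (shift F V ^ n) w, Submodule.sub_mem _ hz
          (cast_mem _ _ (hNw n) (by ring) rfl), 0, Submodule.zero_mem _, ?_⟩
        rw [map_zero, add_zero, map_sub, hzx, hdN, map_add]; abel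
      have h1 := hI_of_D _ _ hn1 (k1 k hkU hkn)
      obtain ⟨z', hz', hz'k⟩ := C.Q1 hk h1
      refine ⟨dp (up lam) d z' + w, Submodule.add_mem _ ?_ hw, ?_⟩
      · exact cast_mem _ _ (C.dp_mem hz') (by ring) rfl
      · rw [map_add, hz'k]
    · intro y hy hdy
      obtain ⟨k, hk, w, hw, rfl⟩ := C.HR hy hdy
      obtain ⟨hkL, hkd, hkd'⟩ := LC.mem_K.mp hk
      have hkU : k ∈ U n := (memU _ _).mpr ⟨⟨hkL, hkd, hkd'⟩, bz hn2 hkL⟩
      obtain ⟨x, hx, hxk⟩ := k2 k hkU
      obtain ⟨⟨hxL, hxd, hxd'⟩, _⟩ := (memU _ _).mp hx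
      have hNx : ∀ m : ℕ, (shift F V ^ m) x ∈ LL B (-(n : ℤ) + 2 * m) j ∧
          d ((shift F V ^ m) x) = 0 ∧ d' ((shift F V ^ m) x) = 0 := by
        intro m
        induction m with
        | zero => exact ⟨by simpa using hxL, by simpa using hxd, by simpa using hxd'⟩
        | succ m ih =>
          rw [pow_succ', Module.End.mul_apply]
          refine ⟨cast_mem _ _ (shift_mem ih.1) (by push_cast; ring) rfl, ?_, ?_⟩
          · change shift F V (d ((shift F V ^ m) x)) = 0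
            rw [ih.2.1, map_zero]
          · rw [d'_eq]
            change shift F V (dd (dp lam ρ) (dp lam τ) ((shift F V ^ m) x)) = 0
            rw [← d'_eq, ih.2.2, map_zero]
      obtain ⟨g1, g2, g3⟩ := hNx n
      have g1' : (shift F V ^ n) x ∈ LL B n j := cast_mem _ _ g1 (by ring) rfl
      have hKK : k - (shift F V ^ n) x ∈ LC.K (up lam) d (LL B) n j :=
        LC.mem_K.mpr ⟨Submodule.sub_mem _ hkL g1', by rw [map_sub, hkd, g2, sub_zero], by
          rw [← hd', map_sub, g3, hd', hkd', sub_zero]⟩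
      obtain ⟨z', hz', hz'k⟩ := C.Q1 hKK (hI_of_D _ _ hn2 hxk)
      refine ⟨x, hxL, hxd, dp (up lam) d z' + w, Submodule.add_mem _ ?_ hw, ?_⟩
      · exact cast_mem _ _ (C.dp_mem hz') (by ring) rfl
      · rw [map_add, hz'k]; abel
  · -- N U
    intro i x hx
    obtain ⟨⟨h1, h2, h3⟩, h4⟩ := (memU _ _).mp hx
    refine (memU _ _).mpr ⟨⟨shift_mem h1, ?_, ?_⟩, ?_⟩
    · change shift F V (d x) = 0
      rw [h2, map_zero]
    · rw [d'_eq]
      change shift F V (dd (dp lam ρ) (dp lam τ) x) = 0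
      rw [← d'_eq, h3, map_zero]
    · rw [bN, h4, map_zero]
  · -- N D
    intro i x hx
    obtain ⟨m, hm, z, hz, rfl⟩ := (memD _ _).mp hx
    obtain ⟨a, ha, b, hb', rfl⟩ := LC.mem_I.mp hm
    refine (memD _ _).mpr ⟨_, LC.mem_I.mpr ⟨shift F V a, cast_mem _ _ (shift_mem ha) (by ring) rfl,
      shift F V b, cast_mem _ _ (shift_mem hb') (by ring) rfl, rfl⟩, shift F V z, shift_mem hz, ?_⟩
    rw [bN, map_add, map_add, ← hd', d'_eq]; rfl
  · -- f U
    intro i x hx
    obtain ⟨⟨h1, h2, h3⟩, h4⟩ := (memU _ _).mp hx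
    have hfx := fo_mem h1
    -- d' (f x) = - δ x
    have h5 : d' (fo F V i x) = - ho (dp lam ρ) (dp lam τ) i x := by
      have := fo_d (ρ := dp lam ρ) (τ := dp lam τ) i x
      rw [← d'_eq, h3, map_zero] at this
      rw [eq_neg_iff_add_eq_zero, ← this]
    have h6 : d (d' (fo F V i x)) = 0 := by
      rw [h5, map_neg]
      have := S.ho_eq h1
      rw [← hd, h2] at this
      have e : ho (dp lam ρ) (dp lam τ) (i + 1) (0 : ℕ → V) = 0 := by ext t; simp [ho]
      rw [e, add_zero] at this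
      rw [this]
      have e2 : (fun t : ℕ => bx lam ρ τ ((i + 2 * t : ℤ) : F) (x t)) = bxl lam ρ τ i x := rfl
      rw [e2, h4, neg_zero]
    obtain ⟨k, hk, a, ha, b, hb', hkab⟩ := C.Q2 hfx h6
    have hm : d a + dp (up lam) d b ∈ LC.I (up lam) d (LL B) (i - 2) j :=
      LC.mem_I.mpr ⟨a, ha, b, hb', rfl⟩
    refine ⟨k, (memU _ _).mpr ⟨LC.mem_K.mp hk, ?_⟩, ?_⟩
    · have e1 : k = fo F V i x - (d a + dp (up lam) d b) := by rw [hkab]; abel
      rw [e1, map_sub, bI hm, sub_zero]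
      ext t
      rw [bxl_apply, fo_apply, map_smul]
      rcases t with _ | t
      · simp
      · rw [Nat.add_sub_cancel]
        have e2 : (i - 2 + 2 * ((t + 1 : ℕ) : ℤ)) = i + 2 * (t : ℤ) := by push_cast; ring
        have e3 := congrFun h4 t
        rw [bxl_apply] at e3
        rw [e2, e3]; simp
    · apply D_of_I
      rw [hkab, add_sub_cancel_left]; exact hm
  · -- f (U ∩ D)
    intro i x hxU hxD
    obtain ⟨⟨h1, h2, h3⟩, h4⟩ := (memU _ _).mp hxU
    obtain ⟨m, hm, z, hz, rfl⟩ := (memD _ _).mp hxD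
    -- box z ∈ K
    have hdb : d (bxl lam ρ τ i z) = 0 := by
      rw [← bd hz]
      by_cases hi : i + 1 = 0
      · rw [bd hz, bz (by omega) hz, map_zero]
      · exact bz hi (S.LL_d hz)
    have hd'b : d' (bxl lam ρ τ i z) = 0 := by
      rw [← bd' hz]
      by_cases hi : i + 1 = 0
      · rw [bd' hz, bz (by omega) hz, map_zero]
      · exact bz hi (C.dp_mem hz)
    have hmK : m ∈ LC.K (up lam) d (LL B) i j := by
      refine LC.mem_K.mpr ⟨C.I_le hm, ?_, ?_⟩
      · rw [map_add, hdb, add_zero] at h2; exact h2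
      · rw [map_add, hd'b, add_zero] at h3; exact h3
    obtain ⟨w, hw, hwm⟩ := C.Q1 hmK hm
    rw [map_add, fb hz, add_zero, ← hwm, ← hd']
    -- f (d d' w)
    have e1 := fo_d (ρ := ρ) (τ := τ) (i - 1) (d' w)
    rw [sub_add_cancel, ← hd] at e1
    have e2 := S.ho_eq' hw
    rw [← d'_eq] at e2
    have ei : i - 2 + 1 = i - 1 := by ring
    rw [ei] at e2
    have e3 : ho ρ τ (i - 1) (d' w) = - d' (ho ρ τ (i - 2) w) - bxl lam ρ τ (i - 2) w := by
      have := eq_sub_of_add_eq' e2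
      rw [this]; abel
    rw [e1, e3]
    have m1 : fo F V (i - 1) (d' w) ∈ LL B (i - 2 - 1) (j - 1) := by
      have := fo_mem (C.dp_mem hw)
      rw [ei] at this
      exact cast_mem _ _ this (by ring) rfl
    have m2 : ho ρ τ (i - 2) w ∈ LL B (i - 2 - 1) (j + 1) := S.ho_mem' hw
    refine (memD _ _).mpr ⟨d (fo F V (i - 1) (d' w)) + dp (up lam) d (- ho ρ τ (i - 2) w),
      LC.mem_I.mpr ⟨_, m1, _, Submodule.neg_mem _ m2, rfl⟩, -w, Submodule.neg_mem _ hw, ?_⟩
    rw [map_neg, map_neg, ← hd']; abel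
  · intro i x _
    exact shift_fo i x
  · obtain ⟨R, hR⟩ := S.bdd
    refine ⟨R, fun i hi x hx => ?_⟩
    have hxL := ((memU _ _).mp hx).1.1
    ext t
    rw [Pi.zero_apply]
    rcases lt_or_ge (i + (t : ℤ)) 0 with h1 | h1
    · exact (hxL t).2 h1
    · refine hR _ _ (Or.inr ?_) _ (hxL t).1
      rcases abs_cases i with ⟨h2, h3⟩ | ⟨h2, h3⟩ <;> omega

end Sys

end H43.WM
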