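import Pool.Agent.H43.WM.Sl2
import Pool.Agent.H43.WM.Defs

/-! Abstract Lefschetz complexes: `d`, `d' = [lam, d]` and the `d d'`-lemma from hard Lefschetz
on cohomology. -/

namespace H43.WM

variable {F M : Type*} [Field F] [CharZero F] [AddCommGroup M] [Module F M]

omit [CharZero F] in
theorem dp_apply (lam d : Module.End F M) (x : M) : dp lam d x = lam (d x) - d (lam x) := rfl

/-- A Lefschetz complex. -/
structure LC (h l lam d : Module.End F M) (L : ℤ → ℤ → Submodule F M) : Prop where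
  t : Trip h l lam
  fam : ∀ i, Fam h l lam (L i)
  dl : ∀ x, d (l x) = l (d x)
  dlam : ∀ x, lam (dp lam d x) = dp lam d (lam x)
  d_mem : ∀ i j x, x ∈ L i j → d x ∈ L (i + 1) (j + 1)
  dd : ∀ i j x, x ∈ L i j → d (d x) = 0
  HL1 : ∀ (i : ℤ) (n : ℕ) (x : M), x ∈ L i (-n) → d x = 0 →
    (∃ z ∈ L (i - 1) (n - 1), d z = (l ^ n) x) → ∃ z ∈ L (i - 1) (-n - 1), d z = x
  HL2 : ∀ (i : ℤ) (n : ℕ) (y : M), y ∈ L i n → d y = 0 →
    ∃ x ∈ L i (-n), d x = 0 ∧ ∃ z ∈ L (i - 1) (n - 1), y = (l ^ n) x + d z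

omit [CharZero F] in
theorem cast_mem {L : ℤ → ℤ → Submodule F M} {i j : ℤ} (i' j' : ℤ) {x : M} (hx : x ∈ L i' j')
    (hi : i' = i) (hj : j' = j) :
    x ∈ L i j := by subst hi; subst hj; exact hx

namespace LC

variable {h l lam d : Module.End F M} {L : ℤ → ℤ → Submodule F M}

theorem dp_mem (C : LC h l lam d L) {i j : ℤ} {x : M} (hx : x ∈ L i j) :
    dp lam d x ∈ L (i + 1) (j - 1) := by
  rw [dp_apply]
  refine Submodule.sub_mem _ ?_ ?_
  · have h1 := (C.fam _).lam_mem _ _ (C.d_mem _ _ _ hx)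
    have e : j + 1 - 2 = j - 1 := by ring
    rwa [e] at h1
  · have h1 := C.d_mem _ _ _ ((C.fam _).lam_mem _ _ hx)
    have e : j - 2 + 1 = j - 1 := by ring
    rwa [e] at h1

theorem l_dp (C : LC h l lam d L) {i j : ℤ} {x : M} (hx : x ∈ L i j) :
    l (dp lam d x) = dp lam d (l x) + d x := by
  have h1 := (C.fam _).wt _ _ (C.d_mem _ _ _ hx)
  have h2 := (C.fam _).wt _ _ hx
  have h3 := C.t.ll (d x)
  have h4 := C.t.ll x
  rw [dp_apply, dp_apply, map_sub, h3, C.dl x, ← C.dl (lam x), h4, map_add, h1, h2, map_smul]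
  push_cast; module

theorem d_dp (C : LC h l lam d L) {i j : ℤ} {x : M} (hx : x ∈ L i j) :
    dp lam d (d x) = - d (dp lam d x) := by
  rw [dp_apply, dp_apply, map_sub, C.dd _ _ _ hx, C.dd _ _ _ ((C.fam _).lam_mem _ _ hx)]
  simp

theorem dp_dp (C : LC h l lam d L) {i j : ℤ} {x : M} (hx : x ∈ L i j) :
    dp lam d (dp lam d x) = 0 := by
  have hl := (C.fam _).lam_mem _ _ hx
  have h1 := C.d_dp hx
  have h2 := C.d_dp hl
  have h3 : dp lam d (d x) = dp lam d (d x) := rfl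
  -- lam (dp (d x)) = dp (lam (d x)) = dp (dp x + d (lam x))
  have h4 : lam (dp lam d (d x)) = dp lam d (dp lam d x) + dp lam d (d (lam x)) := by
    rw [C.dlam, ← map_add]
    congr 1
    rw [dp_apply]; abel
  have h5 : lam (d (dp lam d x)) = dp lam d (dp lam d x) + d (dp lam d (lam x)) := by
    rw [← C.dlam, dp_apply lam d (dp lam d x)]; abel
  have h6 : lam (dp lam d (d x)) = - lam (d (dp lam d x)) := by rw [h1, map_neg]
  rw [h4, h5, h2] at h6
  have h7 : (2 : F) • dp lam d (dp lam d x) = 0 := by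
    have : (2 : F) • dp lam d (dp lam d x)
        = (dp lam d (dp lam d x) + -d (dp lam d (lam x)))
          - -(dp lam d (dp lam d x) + d (dp lam d (lam x))) := by module
    rw [this, h6, sub_self]
  exact (smul_eq_zero.mp h7).resolve_left two_ne_zero

/-- `d d'` commutes with `l`. -/
theorem T_l (C : LC h l lam d L) {i j : ℤ} {x : M} (hx : x ∈ L i j) :
    d (dp lam d (l x)) = l (d (dp lam d x)) := by
  have h1 := C.l_dp hx
  have h2 : dp lam d (l x) = l (dp lam d x) - d x := by rw [h1]; abel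
  rw [h2, map_sub, C.dd _ _ _ hx, C.dl]; simp

theorem T_l_pow (C : LC h l lam d L) (k : ℕ) {i j : ℤ} {x : M} (hx : x ∈ L i j) :
    d (dp lam d ((l ^ k) x)) = (l ^ k) (d (dp lam d x)) := by
  induction k with
  | zero => simp
  | succ k ih =>
    rw [pow_succ', Module.End.mul_apply, Module.End.mul_apply,
      C.T_l ((C.fam i).pow_mem k hx rfl), ih]

theorem d_l_pow (C : LC h l lam d L) (k : ℕ) (x : M) : d ((l ^ k) x) = (l ^ k) (d x) := by
  induction k with
  | zero => simp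
  | succ k ih => rw [pow_succ', Module.End.mul_apply, Module.End.mul_apply, C.dl, ih]

/-- The family `ker d ∩ ker d'`. -/
def K (lam d : Module.End F M) (L : ℤ → ℤ → Submodule F M) (i j : ℤ) : Submodule F M :=
  L i j ⊓ LinearMap.ker d ⊓ LinearMap.ker (dp lam d)

omit [CharZero F] in
theorem mem_K {i j : ℤ} {x : M} : x ∈ K lam d L i j ↔ x ∈ L i j ∧ d x = 0 ∧ dp lam d x = 0 := by
  simp [K, Submodule.mem_inf, and_assoc]

theorem famK (C : LC h l lam d L) (i : ℤ) : Fam h l lam (K lam d L i) where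
  wt j x hx := (C.fam i).wt j x (mem_K.mp hx).1
  l_mem j x hx := by
    obtain ⟨h1, h2, h3⟩ := mem_K.mp hx
    refine mem_K.mpr ⟨(C.fam i).l_mem _ _ h1, ?_, ?_⟩
    · rw [C.dl, h2, map_zero]
    · have := C.l_dp h1
      rw [h3, h2, map_zero, add_zero] at this
      exact this.symm
  lam_mem j x hx := by
    obtain ⟨h1, h2, h3⟩ := mem_K.mp hx
    refine mem_K.mpr ⟨(C.fam i).lam_mem _ _ h1, ?_, ?_⟩
    · have := dp_apply lam d x
      rw [h3, h2, map_zero, zero_sub] at this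
      exact neg_eq_zero.mp this.symm
    · rw [← C.dlam, h3, map_zero]
  bdd := by
    obtain ⟨R, hR⟩ := (C.fam i).bdd
    exact ⟨R, fun j hj x hx => hR j hj x (mem_K.mp hx).1⟩

/-- The family `im d + im d'`. -/
def I (lam d : Module.End F M) (L : ℤ → ℤ → Submodule F M) (i j : ℤ) : Submodule F M :=
  (L (i - 1) (j - 1)).map d ⊔ (L (i - 1) (j + 1)).map (dp lam d)

omit [CharZero F] in
theorem mem_I {i j : ℤ} {x : M} : x ∈ I lam d L i j ↔
    ∃ a ∈ L (i - 1) (j - 1), ∃ b ∈ L (i - 1) (j + 1), x = d a + dp lam d b := by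
  constructor
  · intro hx
    obtain ⟨u, hu, v, hv, rfl⟩ := Submodule.mem_sup.mp hx
    obtain ⟨a, ha, rfl⟩ := Submodule.mem_map.mp hu
    obtain ⟨b, hb, rfl⟩ := Submodule.mem_map.mp hv
    exact ⟨a, ha, b, hb, rfl⟩
  · rintro ⟨a, ha, b, hb, rfl⟩
    exact Submodule.add_mem_sup (Submodule.mem_map_of_mem ha) (Submodule.mem_map_of_mem hb)

theorem I_le (C : LC h l lam d L) {i j : ℤ} {x : M} (hx : x ∈ I lam d L i j) : x ∈ L i j := by
  obtain ⟨a, ha, b, hb, rfl⟩ := mem_I.mp hx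
  refine Submodule.add_mem _ ?_ ?_
  · have := C.d_mem _ _ _ ha
    rwa [sub_add_cancel, sub_add_cancel] at this
  · have := C.dp_mem hb
    rwa [sub_add_cancel, add_sub_cancel_right] at this

theorem famI (C : LC h l lam d L) (i : ℤ) : Fam h l lam (I lam d L i) where
  wt j x hx := (C.fam i).wt j x (C.I_le hx)
  l_mem j x hx := by
    obtain ⟨a, ha, b, hb, rfl⟩ := mem_I.mp hx
    refine mem_I.mpr ⟨l a + b, ?_, l b, ?_, ?_⟩
    · have e : j + 2 - 1 = j + 1 := by ring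
      rw [e]
      refine Submodule.add_mem _ ?_ hb
      have := (C.fam _).l_mem _ _ ha
      have e : j - 1 + 2 = j + 1 := by ring
      rwa [e] at this
    · have := (C.fam _).l_mem _ _ hb
      have e : j + 1 + 2 = j + 2 + 1 := by ring
      rwa [e] at this
    · rw [map_add, C.l_dp hb, map_add, C.dl]; abel
  lam_mem j x hx := by
    obtain ⟨a, ha, b, hb, rfl⟩ := mem_I.mp hx
    refine mem_I.mpr ⟨lam a, ?_, a + lam b, ?_, ?_⟩
    · have := (C.fam _).lam_mem _ _ ha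
      have e : j - 1 - 2 = j - 2 - 1 := by ring
      rwa [e] at this
    · have e : j - 2 + 1 = j - 1 := by ring
      rw [e]
      refine Submodule.add_mem _ ha ?_
      have := (C.fam _).lam_mem _ _ hb
      have e : j + 1 - 2 = j - 1 := by ring
      rwa [e] at this
    · rw [map_add, C.dlam, map_add, dp_apply lam d a]; abel
  bdd := by
    obtain ⟨R, hR⟩ := (C.fam i).bdd
    exact ⟨R, fun j hj x hx => hR j hj x (C.I_le hx)⟩

/-- closed = `K` + exact, in weights `≤ 0`. -/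
theorem HR_neg (C : LC h l lam d L) (i : ℤ) (n : ℕ) {x : M} (hx : x ∈ L i (-(n : ℤ)))
    (hd : d x = 0) :
    ∃ k ∈ K lam d L i (-(n : ℤ)), ∃ z ∈ L (i - 1) (-(n : ℤ) - 1), x = k + d z := by
  obtain ⟨R, hR⟩ := (C.fam i).bdd
  have main : ∀ m n : ℕ, R < n + m → ∀ x ∈ L i (-(n : ℤ)), d x = 0 →
      ∃ k ∈ K lam d L i (-(n : ℤ)), ∃ z ∈ L (i - 1) (-(n : ℤ) - 1), x = k + d z := by
    intro m
    induction m with
    | zero =>
      intro n hn x hx _
      refine ⟨0, Submodule.zero_mem _, 0, Submodule.zero_mem _, ?_⟩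
      rw [hR (-(n : ℤ)) (by rw [abs_neg, abs_of_nonneg (by positivity)]; exact_mod_cast (by omega)) x hx]
      simp
    | succ m ih =>
      intro n hn x hx hdx
      have h1 : (l ^ (n + 1)) x ∈ L i ((n + 2 : ℕ) : ℤ) :=
        (C.fam i).pow_mem (n + 1) hx (by push_cast; ring)
      have h2 : d ((l ^ (n + 1)) x) = 0 := by rw [C.d_l_pow, hdx, map_zero]
      obtain ⟨y, hy, hdy, z, hz, hyz⟩ := C.HL2 i (n + 2) _ h1 h2
      -- z = l^(n+1) z'
      have hz' : z ∈ L (i - 1) ((n + 1 : ℕ) : ℤ) := by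
        have e : ((n + 2 : ℕ) : ℤ) - 1 = ((n + 1 : ℕ) : ℤ) := by push_cast; ring
        rwa [e] at hz
      obtain ⟨z', hz'm, hz'e⟩ := s2 C.t (C.fam (i - 1)) (n + 1) hz'
      have hly : l y ∈ L i (-(n : ℤ)) := by
        have := (C.fam i).l_mem _ _ hy
        have e : (-((n + 2 : ℕ) : ℤ) + 2) = -(n : ℤ) := by push_cast; ring
        rwa [e] at this
      have hz'm2 : z' ∈ L (i - 1) (-(n : ℤ) - 1) := by
        have e : (-((n + 1 : ℕ) : ℤ)) = -(n : ℤ) - 1 := by push_cast; ring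
        rwa [e] at hz'm
      have hdz'm : d z' ∈ L i (-(n : ℤ)) := by
        have := C.d_mem _ _ _ hz'm2
        rwa [sub_add_cancel, sub_add_cancel] at this
      have hk1m : x - l y - d z' ∈ L i (-(n : ℤ)) :=
        Submodule.sub_mem _ (Submodule.sub_mem _ hx hly) hdz'm
      have hk1l : (l ^ (n + 1)) (x - l y - d z') = 0 := by
        rw [map_sub, map_sub, ← C.d_l_pow, hz'e, hyz, pow_succ l (n + 1), Module.End.mul_apply]
        abel
      have hk1lam := s1' C.t (C.fam i) n hk1m hk1l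
      have hk1d : d (x - l y - d z') = 0 := by
        rw [map_sub, map_sub, hdx, C.dl, hdy, map_zero, C.dd _ _ _ hz'm2]; simp
      have hk1 : x - l y - d z' ∈ K lam d L i (-(n : ℤ)) := by
        refine mem_K.mpr ⟨hk1m, hk1d, ?_⟩
        rw [dp_apply, hk1d, hk1lam]; simp
      obtain ⟨k2, hk2, z2, hz2, rfl⟩ := ih (n + 2) (by omega) y hy hdy
      have hlk2 : l k2 ∈ K lam d L i (-(n : ℤ)) := by
        have := (C.famK i).l_mem _ _ hk2
        have e : (-((n + 2 : ℕ) : ℤ) + 2) = -(n : ℤ) := by push_cast; ring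
        rwa [e] at this
      refine ⟨(x - l (k2 + d z2) - d z') + l k2, Submodule.add_mem _ hk1 hlk2,
        z' + l z2, Submodule.add_mem _ hz'm2 ?_, ?_⟩
      · have := (C.fam (i - 1)).l_mem _ _ hz2
        have e : (-((n + 2 : ℕ) : ℤ) - 1 + 2) = -(n : ℤ) - 1 := by push_cast; ring
        rwa [e] at this
      · rw [map_add, map_add, C.dl]; abel
  exact main (R + 1) n (by omega) x hx hd

/-- closed = `K` + exact. -/
theorem HR (C : LC h l lam d L) {i j : ℤ} {x : M} (hx : x ∈ L i j) (hd : d x = 0) :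
    ∃ k ∈ K lam d L i j, ∃ z ∈ L (i - 1) (j - 1), x = k + d z := by
  rcases le_or_gt j 0 with hj | hj
  · obtain ⟨n, rfl⟩ : ∃ n : ℕ, j = -(n : ℤ) := ⟨(-j).toNat, by omega⟩
    exact C.HR_neg i n hx hd
  · obtain ⟨n, rfl⟩ : ∃ n : ℕ, j = (n : ℤ) := ⟨j.toNat, by omega⟩
    obtain ⟨y, hy, hdy, z, hz, rfl⟩ := C.HL2 i n x hx hd
    obtain ⟨k, hk, z', hz', rfl⟩ := C.HR_neg i n hy hdy
    refine ⟨(l ^ n) k, (C.famK i).pow_mem n hk (by ring), z + (l ^ n) z',
      Submodule.add_mem _ hz ((C.fam (i - 1)).pow_mem n hz' (by ring)), ?_⟩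
    rw [map_add, map_add, C.d_l_pow]; abel

/-- `K ∩ I = im (d d')`. -/
theorem Q1 (C : LC h l lam d L) {i j : ℤ} {x : M} (hK : x ∈ K lam d L i j)
    (hI : x ∈ I lam d L i j) : ∃ z ∈ L (i - 2) j, d (dp lam d z) = x := by
  obtain ⟨R, hR⟩ := (C.fam i).bdd
  have main : ∀ m r : ℕ, R < r + m → ∀ x ∈ K lam d L i (r : ℤ), x ∈ I lam d L i (r : ℤ) →
      ∃ z ∈ L (i - 2) (r : ℤ), d (dp lam d z) = x := by
    intro m
    induction m with
    | zero =>
      intro r hr x hx _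
      refine ⟨0, Submodule.zero_mem _, ?_⟩
      rw [hR (r : ℤ) (by rw [abs_of_nonneg (by positivity)]; exact_mod_cast (by omega)) x
        (mem_K.mp hx).1]
      simp
    | succ m ih =>
      intro r hr x hxK hxI
      obtain ⟨hxL, hdx, hdpx⟩ := mem_K.mp hxK
      obtain ⟨a, ha, b, hb, hxab⟩ := mem_I.mp hxI
      -- step 1: d b ∈ K ∩ I at weight r + 2
      have hdbL : d b ∈ L i ((r + 2 : ℕ) : ℤ) := by
        have := C.d_mem _ _ _ hb
        have e1 : i - 1 + 1 = i := by ring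
        have e2 : (r : ℤ) + 1 + 1 = ((r + 2 : ℕ) : ℤ) := by push_cast; ring
        rwa [e1, e2] at this
      have hb2 : b ∈ L (i - 1) (((r + 2 : ℕ) : ℤ) - 1) := by
        have e2 : (r : ℤ) + 1 = ((r + 2 : ℕ) : ℤ) - 1 := by push_cast; ring
        rwa [e2] at hb
      have hdbK : d b ∈ K lam d L i ((r + 2 : ℕ) : ℤ) := by
        refine mem_K.mpr ⟨hdbL, C.dd _ _ _ hb, ?_⟩
        have h1 : dp lam d b = x - d a := by rw [hxab]; abel
        rw [C.d_dp hb, h1, map_sub, hdx, C.dd _ _ _ ha]; simp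
      have hdbI : d b ∈ I lam d L i ((r + 2 : ℕ) : ℤ) :=
        mem_I.mpr ⟨b, hb2, 0, Submodule.zero_mem _, by simp⟩
      obtain ⟨c, hc, hcb⟩ := ih (r + 2) (by omega) _ hdbK hdbI
      have hdpc : dp lam d c ∈ L (i - 1) ((r : ℤ) + 1) := by
        have := C.dp_mem hc
        have e1 : i - 2 + 1 = i - 1 := by ring
        have e2 : ((r + 2 : ℕ) : ℤ) - 1 = (r : ℤ) + 1 := by push_cast; ring
        rwa [e1, e2] at this
      -- b1 = b - dp c closed
      have hb1L : b - dp lam d c ∈ L (i - 1) ((r : ℤ) + 1) := Submodule.sub_mem _ hb hdpc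
      have hb1d : d (b - dp lam d c) = 0 := by rw [map_sub, hcb, sub_self]
      obtain ⟨k, hk, z, hz, hkz⟩ := C.HR hb1L hb1d
      have hz2 : z ∈ L (i - 2) (r : ℤ) := by
        have e1 : i - 1 - 1 = i - 2 := by ring
        have e2 : (r : ℤ) + 1 - 1 = r := by ring
        rwa [e1, e2] at hz
      have hdpb : dp lam d b = - d (dp lam d z) := by
        have h1 : dp lam d (b - dp lam d c) = dp lam d b := by
          rw [map_sub, C.dp_dp hc, sub_zero]
        rw [← h1, hkz, map_add, (mem_K.mp hk).2.2, zero_add, C.d_dp hz]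
      have hdpz : dp lam d z ∈ L (i - 1) ((r : ℤ) - 1) := by
        have := C.dp_mem hz2
        have e1 : i - 2 + 1 = i - 1 := by ring
        rwa [e1] at this
      -- x = d a1
      have hxa1 : x = d (a - dp lam d z) := by rw [hxab, hdpb, map_sub]; abel
      have ha1 : a - dp lam d z ∈ L (i - 1) ((r : ℤ) - 1) := Submodule.sub_mem _ ha hdpz
      -- x = l^r xh
      obtain ⟨xh, hxh, hxhx⟩ := s2 C.t (C.famK i) r hxK
      obtain ⟨hxhL, hdxh, _⟩ := mem_K.mp hxh
      obtain ⟨a2, ha2, hda2⟩ := C.HL1 i r xh hxhL hdxh ⟨_, ha1, by rw [hxhx, hxa1]⟩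
      -- l x ∈ K ∩ I at weight r + 2
      have e2 : (r : ℤ) + 2 = ((r + 2 : ℕ) : ℤ) := by push_cast; ring
      have hlxK : l x ∈ K lam d L i ((r + 2 : ℕ) : ℤ) := by
        have := (C.famK i).l_mem _ _ hxK; rwa [e2] at this
      have hlxI : l x ∈ I lam d L i ((r + 2 : ℕ) : ℤ) := by
        have := (C.famI i).l_mem _ _ hxI; rwa [e2] at this
      obtain ⟨w, hw, hwx⟩ := ih (r + 2) (by omega) _ hlxK hlxI
      have hla2 : (l ^ (r + 1)) a2 ∈ L (i - 1) ((r : ℤ) + 1) :=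
        (C.fam (i - 1)).pow_mem (r + 1) ha2 (by push_cast; ring)
      have hdpw : dp lam d w ∈ L (i - 1) ((r : ℤ) + 1) := by
        have := C.dp_mem hw
        have e1 : i - 2 + 1 = i - 1 := by ring
        have e2 : ((r + 2 : ℕ) : ℤ) - 1 = (r : ℤ) + 1 := by push_cast; ring
        rwa [e1, e2] at this
      have hcl : d ((l ^ (r + 1)) a2 - dp lam d w) = 0 := by
        rw [map_sub, C.d_l_pow, hda2, hwx, pow_succ', Module.End.mul_apply, hxhx, sub_self]
      obtain ⟨k, hk, z2, hz2, hkz2⟩ := C.HR (Submodule.sub_mem _ hla2 hdpw) hcl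
      have hk' : k ∈ K lam d L (i - 1) ((r + 1 : ℕ) : ℤ) := by
        have e2 : (r : ℤ) + 1 = ((r + 1 : ℕ) : ℤ) := by push_cast; ring
        rwa [e2] at hk
      obtain ⟨k', hk'm, hk'k⟩ := s2 C.t (C.famK (i - 1)) (r + 1) hk'
      -- l^(r+1) (a2 - k') = dp w + d z2 ∈ I
      have hIm : d z2 + dp lam d w ∈ I lam d L (i - 1) ((r + 1 : ℕ) : ℤ) := by
        refine mem_I.mpr ⟨z2, ?_, w, ?_, rfl⟩
        · have e2 : (r : ℤ) + 1 - 1 = ((r + 1 : ℕ) : ℤ) - 1 := by push_cast; ring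
          rwa [e2] at hz2
        · have e1 : i - 2 = i - 1 - 1 := by ring
          have e2 : ((r + 2 : ℕ) : ℤ) = ((r + 1 : ℕ) : ℤ) + 1 := by push_cast; ring
          rwa [e1, e2] at hw
      obtain ⟨v, hv, hvv⟩ := s2 C.t (C.famI (i - 1)) (r + 1) hIm
      have ha2' : a2 ∈ L (i - 1) (-((r + 1 : ℕ) : ℤ)) := by
        have e2 : (-(r : ℤ) - 1) = -((r + 1 : ℕ) : ℤ) := by push_cast; ring
        rwa [e2] at ha2
      have hz0 : a2 - k' - v = 0 := by
        apply s1 C.t (C.fam (i - 1)) (r + 1)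
        · exact Submodule.sub_mem _ (Submodule.sub_mem _ ha2' (mem_K.mp hk'm).1) (C.I_le hv)
        · rw [map_sub, map_sub, hk'k, hvv]
          have : (l ^ (r + 1)) a2 = k + d z2 + dp lam d w := by rw [← hkz2]; abel
          rw [this]; abel
      have ha2e : a2 = k' + v := by
        have : a2 = (a2 - k' - v) + (k' + v) := by abel
        rw [this, hz0, zero_add]
      obtain ⟨p, hp, q, hq, hvpq⟩ := mem_I.mp hv
      have hxhT : xh = d (dp lam d q) := by
        rw [← hda2, ha2e, map_add, (mem_K.mp hk'm).2.1, hvpq, map_add, C.dd _ _ _ hp]; simp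
      refine ⟨(l ^ r) q, ?_, ?_⟩
      · have e1 : i - 1 - 1 = i - 2 := by ring
        rw [e1] at hq
        exact (C.fam (i - 2)).pow_mem r hq (by push_cast; ring)
      · rw [C.T_l_pow r hq, ← hxhT, hxhx]
  rcases le_or_gt 0 j with hj | hj
  · obtain ⟨n, rfl⟩ : ∃ n : ℕ, j = (n : ℤ) := ⟨j.toNat, by omega⟩
    exact main (R + 1) n (by omega) x hK hI
  · obtain ⟨n, rfl⟩ : ∃ n : ℕ, j = -(n : ℤ) := ⟨(-j).toNat, by omega⟩
    obtain ⟨z, hz, hzx⟩ := main (R + 1) n (by omega) ((l ^ n) x)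
      ((C.famK i).pow_mem n hK (by ring)) ((C.famI i).pow_mem n hI (by ring))
    obtain ⟨z', hz', hz'z⟩ := s2 C.t (C.fam (i - 2)) n hz
    refine ⟨z', hz', ?_⟩
    have h1 : d (dp lam d z') ∈ L i (-(n : ℤ)) := by
      have := C.d_mem _ _ _ (C.dp_mem hz')
      have e1 : i - 2 + 1 + 1 = i := by ring
      have e2 : -(n : ℤ) - 1 + 1 = -(n : ℤ) := by ring
      rwa [e1, e2] at this
    have h2 : d (dp lam d z') - x = 0 := by
      apply s1 C.t (C.fam i) n (Submodule.sub_mem _ h1 (mem_K.mp hK).1)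
      rw [map_sub, ← C.T_l_pow n hz', hz'z, hzx, sub_self]
    exact sub_eq_zero.mp h2

/-- `ker (d d') = K + I`. -/
theorem Q2 (C : LC h l lam d L) {i j : ℤ} {x : M} (hx : x ∈ L i j)
    (hT : d (dp lam d x) = 0) :
    ∃ k ∈ K lam d L i j, ∃ a ∈ L (i - 1) (j - 1), ∃ b ∈ L (i - 1) (j + 1),
      x = k + (d a + dp lam d b) := by
  have hT' : dp lam d (d x) = 0 := by rw [C.d_dp hx, hT, neg_zero]
  have e1 : i + 1 - 1 = i := by ring
  have e3 : i + 1 - 2 = i - 1 := by ring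
  -- dp x
  have h1K : dp lam d x ∈ K lam d L (i + 1) (j - 1) :=
    mem_K.mpr ⟨C.dp_mem hx, hT, C.dp_dp hx⟩
  have h1I : dp lam d x ∈ I lam d L (i + 1) (j - 1) := by
    refine mem_I.mpr ⟨0, Submodule.zero_mem _, x, ?_, by simp⟩
    rwa [e1, sub_add_cancel]
  obtain ⟨z, hz, hzx⟩ := C.Q1 h1K h1I
  rw [e3] at hz
  have h2K : d x ∈ K lam d L (i + 1) (j + 1) :=
    mem_K.mpr ⟨C.d_mem _ _ _ hx, C.dd _ _ _ hx, hT'⟩
  have h2I : d x ∈ I lam d L (i + 1) (j + 1) := by
    refine mem_I.mpr ⟨x, ?_, 0, Submodule.zero_mem _, by simp⟩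
    rwa [e1, add_sub_cancel_right]
  obtain ⟨w, hw, hwx⟩ := C.Q1 h2K h2I
  rw [e3] at hw
  -- k = x + d z - dp w
  have hdz : d z ∈ L i j := by
    have := C.d_mem _ _ _ hz; rwa [sub_add_cancel, sub_add_cancel] at this
  have hdw : dp lam d w ∈ L i j := by
    have := C.dp_mem hw; rwa [sub_add_cancel, add_sub_cancel_right] at this
  refine ⟨x + d z - dp lam d w, ?_, -z, Submodule.neg_mem _ hz, w, hw, ?_⟩
  · refine mem_K.mpr ⟨Submodule.sub_mem _ (Submodule.add_mem _ hx hdz) hdw, ?_, ?_⟩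
    · rw [map_sub, map_add, C.dd _ _ _ hz, hwx]; abel
    · rw [map_sub, map_add, C.d_dp hz, C.dp_dp hw, hzx]; abel
  · rw [map_neg]; abel

end LC

end H43.WM
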