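import Mathlib

/-! Graded sl2 lemmas with relations assumed only on the graded pieces. -/

namespace H43.WM

variable {F M : Type*} [Field F] [CharZero F] [AddCommGroup M] [Module F M]

/-- A graded sl2-structure on a family of submodules. -/
structure GF (l lam : Module.End F M) (S : ℤ → Submodule F M) : Prop where
  l_mem : ∀ j x, x ∈ S j → l x ∈ S (j + 2)
  lam_mem : ∀ j x, x ∈ S j → lam x ∈ S (j - 2)
  ll : ∀ j x, x ∈ S j → l (lam x) = lam (l x) + (j : F) • x
  bdd : ∃ R : ℕ, ∀ j : ℤ, (R : ℤ) < |j| → ∀ x ∈ S j, x = 0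

namespace GF

variable {l lam : Module.End F M} {S : ℤ → Submodule F M}

omit [CharZero F] in
theorem symm (f : GF l lam S) : GF lam l (fun j => S (-j)) where
  l_mem j x hx := by
    have := f.lam_mem (-j) x hx
    have e : -(j + 2) = -j - 2 := by ring
    change lam x ∈ S (-(j + 2))
    rw [e]; exact this
  lam_mem j x hx := by
    have := f.l_mem (-j) x hx
    have e : -(j - 2) = -j + 2 := by ring
    change l x ∈ S (-(j - 2))
    rw [e]; exact this
  ll j x hx := by
    have := f.ll (-j) x hx
    rw [this]; push_cast; module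
  bdd := by
    obtain ⟨R, hR⟩ := f.bdd
    exact ⟨R, fun j hj x hx => hR (-j) (by simpa using hj) x hx⟩

omit [CharZero F] in
theorem pow_mem (f : GF l lam S) (k : ℕ) {j j' : ℤ} {x : M} (hx : x ∈ S j)
    (hj : j' = j + 2 * k) : (l ^ k) x ∈ S j' := by
  subst hj
  induction k with
  | zero => simpa using hx
  | succ k ih =>
    have := f.l_mem _ _ ih
    rw [pow_succ']
    have e : j + 2 * ((k + 1 : ℕ) : ℤ) = j + 2 * (k : ℤ) + 2 := by push_cast; ring
    rw [e]; exact this

omit [CharZero F] in
theorem pow_lam_mem (f : GF l lam S) (k : ℕ) {j j' : ℤ} {x : M} (hx : x ∈ S j)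
    (hj : j' = j - 2 * k) : (lam ^ k) x ∈ S j' := by
  have := f.symm.pow_mem k (j := -j) (j' := -j') (x := x) (by simpa using hx) (by rw [hj]; ring)
  simpa using this

omit [CharZero F] in
theorem pow_lam (f : GF l lam S) {j : ℤ} {x : M} (hx : x ∈ S j) (m : ℕ) :
    (l ^ (m + 1)) (lam x) = lam ((l ^ (m + 1)) x) + (((m : F) + 1) * ((j : F) + m)) • (l ^ m) x := by
  induction m with
  | zero => simp [f.ll j x hx]
  | succ m ih =>
    have e1 : (l ^ (m + 1 + 1)) (lam x) = l ((l ^ (m + 1)) (lam x)) := by
      rw [pow_succ' l (m + 1), Module.End.mul_apply]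
    have e2 : (l ^ (m + 1 + 1)) x = l ((l ^ (m + 1)) x) := by
      rw [pow_succ' l (m + 1), Module.End.mul_apply]
    have e3 : (l ^ (m + 1)) x = l ((l ^ m) x) := by
      rw [pow_succ' l m, Module.End.mul_apply]
    rw [e1, e2, ih, map_add, f.ll _ _ (f.pow_mem (m + 1) hx rfl), map_smul, ← e3]
    push_cast; module

theorem s1 (f : GF l lam S) (n : ℕ) {x : M} (hx : x ∈ S (-(n : ℤ)))
    (h0 : (l ^ n) x = 0) : x = 0 := by
  obtain ⟨R, hR⟩ := f.bdd
  have nil : ∃ K : ℕ, (lam ^ K) x = 0 := by
    refine ⟨R + 1, hR (-(n : ℤ) - 2 * ((R + 1 : ℕ) : ℤ)) ?_ _ (f.pow_lam_mem (R + 1) hx rfl)⟩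
    rw [abs_of_neg (by push_cast; omega)]; push_cast; omega
  obtain ⟨K, hK⟩ := nil
  induction K generalizing x with
  | zero => simpa using hK
  | succ M ih =>
    rcases Nat.eq_zero_or_pos n with hn | hn
    · subst hn; simpa using h0
    have hlx := f.l_mem _ _ hx
    have key := f.symm.pow_lam (j := (n : ℤ)) (x := x) hx M
    rw [hK, map_zero, zero_add] at key
    have hx' : lam (l x) - (((M : F) + 1) * (n + M)) • x = 0 := by
      apply ih
      · refine Submodule.sub_mem _ ?_ (Submodule.smul_mem _ _ hx)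
        have h2 := f.lam_mem _ _ hlx
        simpa using h2
      · obtain ⟨n', rfl⟩ : ∃ n', n = n' + 1 := ⟨n - 1, by omega⟩
        have k2 := f.pow_lam hlx n'
        have e : (l ^ (n' + 1)) (l x) = l ((l ^ (n' + 1)) x) := by
          rw [← Module.End.mul_apply, ← Module.End.mul_apply, ← pow_succ, ← pow_succ']
        have e' : (l ^ n') (l x) = (l ^ (n' + 1)) x := by
          rw [← Module.End.mul_apply, ← pow_succ]
        rw [map_sub, k2, e, e', map_smul, h0]
        simp
      · rw [map_sub, map_smul]
        have e : (lam ^ M) (lam (l x)) = (lam ^ (M + 1)) (l x) := by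
          rw [← Module.End.mul_apply, ← pow_succ]
        rw [e, key]; push_cast; module
    have hx'' : lam (l x) = (((M : F) + 1) * (n + M)) • x := sub_eq_zero.mp hx'
    have hll : l (lam x) = (((M : F) + 1) * (n + M) - n) • x := by
      rw [f.ll _ _ hx, hx'']; push_cast; module
    have desc : ∀ k : ℕ, k ≤ n → (l ^ k) x = 0 → x = 0 := by
      intro k
      induction k with
      | zero => intro _ h; simpa using h
      | succ k ihk =>
        intro hk h
        apply ihk (by omega)
        have k3 := f.pow_lam hx k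
        have e : (l ^ (k + 1)) (lam x) = (((M : F) + 1) * (n + M) - n) • (l ^ k) x := by
          rw [pow_succ, Module.End.mul_apply, hll, map_smul]
        rw [e, h, map_zero, zero_add] at k3
        have k4 : ((((M : F) + 1) * (n + M) - n) - (k + 1) * (-(n : F) + k)) • (l ^ k) x = 0 := by
          rw [sub_smul, k3]; push_cast; simp
        rcases smul_eq_zero.mp k4 with h5 | h5
        · exfalso
          have h6 : ((((M : F) + 1) * (n + M) - n) - (k + 1) * (-(n : F) + k))
              = ((M * (n + M + 1) + (k + 1) * (n - k) : ℕ) : F) := by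
            rw [Nat.cast_add, Nat.cast_mul, Nat.cast_mul, Nat.cast_sub (by omega)]
            push_cast; ring
          rw [h6, Nat.cast_eq_zero] at h5
          have : 0 < (k + 1) * (n - k) := Nat.mul_pos (by omega) (by omega)
          omega
        · exact h5
    exact desc n le_rfl h0

theorem s2 (f : GF l lam S) (n : ℕ) {x : M} (hx : x ∈ S (n : ℤ)) :
    ∃ y ∈ S (-(n : ℤ)), (l ^ n) y = x := by
  obtain ⟨R, hR⟩ := f.bdd
  have main : ∀ m n : ℕ, R < n + m → ∀ x ∈ S (n : ℤ), ∃ y ∈ S (-(n : ℤ)), (l ^ n) y = x := by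
    intro m
    induction m with
    | zero =>
      intro n hn x hx
      refine ⟨0, Submodule.zero_mem _, ?_⟩
      rw [map_zero, hR n (by rw [abs_of_nonneg (by positivity)]; exact_mod_cast (by omega)) x hx]
    | succ m ih =>
      intro n hn x hx
      have hlx : l x ∈ S ((n + 2 : ℕ) : ℤ) := by
        have := f.l_mem _ _ hx; exact_mod_cast this
      obtain ⟨y, hy, hyx⟩ := ih (n + 2) (by omega) _ hlx
      have hx1 : x - (l ^ (n + 1)) y ∈ S (n : ℤ) := by
        refine Submodule.sub_mem _ hx (f.pow_mem (n + 1) hy (by push_cast; ring))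
      have hlx1 : l (x - (l ^ (n + 1)) y) = 0 := by
        rw [map_sub, ← hyx, pow_succ' l (n + 1), Module.End.mul_apply]; simp
      set x1 := x - (l ^ (n + 1)) y with hx1def
      have step : ∀ k : ℕ, k ≤ n → ∃ c : F, c ≠ 0 ∧ (l ^ k) ((lam ^ k) x1) = c • x1 := by
        intro k
        induction k with
        | zero => intro _; exact ⟨1, one_ne_zero, by simp⟩
        | succ k ihk =>
          intro hk
          obtain ⟨c, hc, hcx⟩ := ihk (by omega)
          have k1 := f.symm.pow_lam (j := -(n : ℤ)) (x := x1) (by simpa using hx1) k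
          rw [hlx1, map_zero] at k1
          have k2 : l ((lam ^ (k + 1)) x1) = (((k : F) + 1) * (n - k)) • (lam ^ k) x1 := by
            have e : (((k : F) + 1) * (n - k)) = -(((k : F) + 1) * (((-(n : ℤ) : ℤ) : F) + k)) := by
              push_cast; ring
            rw [e, neg_smul]; exact eq_neg_of_add_eq_zero_left k1.symm
          refine ⟨(((k : F) + 1) * (n - k)) * c, ?_, ?_⟩
          · apply mul_ne_zero _ hc
            have : (((k : F) + 1) * (n - k)) = (((k + 1) * (n - k) : ℕ) : F) := by
              rw [Nat.cast_mul, Nat.cast_sub (by omega)]; push_cast; ring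
            rw [this, Nat.cast_ne_zero]
            exact Nat.mul_ne_zero (by omega) (by omega)
          · rw [pow_succ l k, Module.End.mul_apply, k2, map_smul, hcx, smul_smul]
      obtain ⟨c, hc, hcx⟩ := step n le_rfl
      have hz : (lam ^ n) x1 ∈ S (-(n : ℤ)) := f.pow_lam_mem n hx1 (by ring)
      refine ⟨c⁻¹ • (lam ^ n) x1 + l y, ?_, ?_⟩
      · refine Submodule.add_mem _ (Submodule.smul_mem _ _ hz) ?_
        have := f.l_mem _ _ hy
        have e : (-((n + 2 : ℕ) : ℤ) + 2) = -(n : ℤ) := by push_cast; ring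
        rwa [e] at this
      · rw [map_add, map_smul, hcx, smul_smul, inv_mul_cancel₀ hc, one_smul, hx1def]
        rw [pow_succ, Module.End.mul_apply]; abel
  exact main (R + 1) n (by omega) x hx

end GF

end H43.WM
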