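import Mathlib

/-! Elementary sl2 lemmas, for families of weight submodules of a possibly
infinite-dimensional module, with bounded weights. -/

namespace H43.WM

variable {F M : Type*} [Field F] [CharZero F] [AddCommGroup M] [Module F M]

/-- sl2-triple relations, pointwise. -/
structure Trip (h l lam : Module.End F M) : Prop where
  hl : ∀ x, h (l x) = l (h x) + (2 : F) • l x
  hlam : ∀ x, h (lam x) = lam (h x) - (2 : F) • lam x
  ll : ∀ x, l (lam x) = lam (l x) + h x

variable {h l lam : Module.End F M}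

theorem Trip.symm (t : Trip h l lam) : Trip (-h) lam l where
  hl x := by
    simp only [LinearMap.neg_apply, t.hlam x, map_neg]; module
  hlam x := by
    simp only [LinearMap.neg_apply, t.hl x, map_neg]; module
  ll x := by
    simp only [LinearMap.neg_apply, t.ll x]; module

/-- A family of weight submodules stable under `l`, `lam`, with bounded weights. -/
structure Fam (h l lam : Module.End F M) (S : ℤ → Submodule F M) : Prop where
  wt : ∀ j x, x ∈ S j → h x = (j : F) • x
  l_mem : ∀ j x, x ∈ S j → l x ∈ S (j + 2)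
  lam_mem : ∀ j x, x ∈ S j → lam x ∈ S (j - 2)
  bdd : ∃ R : ℕ, ∀ j : ℤ, (R : ℤ) < |j| → ∀ x ∈ S j, x = 0

variable {S : ℤ → Submodule F M}

theorem Fam.symm (f : Fam h l lam S) : Fam (-h) lam l (fun j => S (-j)) where
  wt j x hx := by
    have := f.wt (-j) x hx
    simp only [LinearMap.neg_apply, this]; push_cast; module
  l_mem j x hx := by
    have := f.lam_mem (-j) x hx
    have e : -(j + 2) = -j - 2 := by ring
    change lam x ∈ S (-(j + 2))
    rw [e]; exact this
  lam_mem j x hx := by
    have := f.l_mem (-j) x hx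
    have e : -(j - 2) = -j + 2 := by ring
    change l x ∈ S (-(j - 2))
    rw [e]; exact this
  bdd := by
    obtain ⟨R, hR⟩ := f.bdd
    exact ⟨R, fun j hj x hx => hR (-j) (by simpa using hj) x hx⟩

theorem Fam.pow_mem (f : Fam h l lam S) (k : ℕ) {j j' : ℤ} {x : M} (hx : x ∈ S j)
    (hj : j' = j + 2 * k) : (l ^ k) x ∈ S j' := by
  subst hj
  induction k with
  | zero => simpa using hx
  | succ k ih =>
    have := f.l_mem _ _ ih
    rw [pow_succ']
    have e : j + 2 * ((k + 1 : ℕ) : ℤ) = j + 2 * (k : ℤ) + 2 := by push_cast; ring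
    rw [e]; exact this

theorem Fam.pow_lam_mem (f : Fam h l lam S) (k : ℕ) {j j' : ℤ} {x : M} (hx : x ∈ S j)
    (hj : j' = j - 2 * k) : (lam ^ k) x ∈ S j' := by
  have := f.symm.pow_mem k (j := -j) (j' := -j') (x := x) (by simpa using hx) (by rw [hj]; ring)
  simpa using this

theorem Trip.h_pow (t : Trip h l lam) {μ : F} {x : M} (hx : h x = μ • x) (k : ℕ) :
    h ((l ^ k) x) = (μ + 2 * k) • (l ^ k) x := by
  induction k with
  | zero => simp [hx]
  | succ k ih =>
    rw [pow_succ', Module.End.mul_apply, t.hl, ih]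
    simp only [map_smul]; push_cast; module

/-- `l^(m+1) lam x = lam l^(m+1) x + (m+1)(μ+m) l^m x`. -/
theorem Trip.pow_lam (t : Trip h l lam) {μ : F} {x : M} (hx : h x = μ • x) (m : ℕ) :
    (l ^ (m + 1)) (lam x) = lam ((l ^ (m + 1)) x) + ((m + 1) * (μ + m)) • (l ^ m) x := by
  induction m with
  | zero => simp [t.ll, hx]
  | succ m ih =>
    have e1 : (l ^ (m + 1 + 1)) (lam x) = l ((l ^ (m + 1)) (lam x)) := by
      rw [pow_succ' l (m + 1), Module.End.mul_apply]
    have e2 : (l ^ (m + 1 + 1)) x = l ((l ^ (m + 1)) x) := by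
      rw [pow_succ' l (m + 1), Module.End.mul_apply]
    have e3 : (l ^ (m + 1)) x = l ((l ^ m) x) := by
      rw [pow_succ' l m, Module.End.mul_apply]
    rw [e1, e2, ih, map_add, t.ll, t.h_pow hx, map_smul, ← e3]
    push_cast; module

/-- A highest weight vector of negative weight vanishes; more generally (S1). -/
theorem s1 (t : Trip h l lam) (f : Fam h l lam S) (n : ℕ) {x : M} (hx : x ∈ S (-(n : ℤ)))
    (h0 : (l ^ n) x = 0) : x = 0 := by
  obtain ⟨R, hR⟩ := f.bdd
  -- lam is nilpotent on x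
  have nil : ∃ K : ℕ, (lam ^ K) x = 0 := by
    refine ⟨R + 1, hR (-(n : ℤ) - 2 * ((R + 1 : ℕ) : ℤ)) ?_ _ (f.pow_lam_mem (R + 1) hx rfl)⟩
    rw [abs_of_neg (by push_cast; omega)]; push_cast; omega
  obtain ⟨K, hK⟩ := nil
  induction K generalizing x with
  | zero => simpa using hK
  | succ M ih =>
    rcases Nat.eq_zero_or_pos n with hn | hn
    · subst hn; simpa using h0
    -- c = (M+1)(n+M)
    have hw : h x = (-(n : F)) • x := by
      have := f.wt _ _ hx; simpa using this
    have hwl : h (l x) = (-(n : F) + 2) • l x := by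
      rw [t.hl, hw]; simp only [map_smul]; module
    have hwneg : (-h) x = ((n : F)) • x := by
      simp only [LinearMap.neg_apply, hw]; module
    have key := t.symm.pow_lam hwneg M
    rw [hK, map_zero, zero_add] at key
    have hx' : lam (l x) - (((M : F) + 1) * (n + M)) • x = 0 := by
      apply ih
      · refine Submodule.sub_mem _ ?_ (Submodule.smul_mem _ _ hx)
        have h1 := f.l_mem _ _ hx
        have h2 := f.lam_mem _ _ h1
        simpa using h2
      · obtain ⟨n', rfl⟩ : ∃ n', n = n' + 1 := ⟨n - 1, by omega⟩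
        have k2 := t.pow_lam hwl n'
        have e : (l ^ (n' + 1)) (l x) = l ((l ^ (n' + 1)) x) := by
          rw [← Module.End.mul_apply, ← Module.End.mul_apply, ← pow_succ, ← pow_succ']
        have e' : (l ^ n') (l x) = (l ^ (n' + 1)) x := by
          rw [← Module.End.mul_apply, ← pow_succ]
        rw [map_sub, k2, e, e', map_smul, h0]
        simp
      · rw [map_sub, map_smul]
        have e : (lam ^ M) (lam (l x)) = (lam ^ (M + 1)) (l x) := by
          rw [← Module.End.mul_apply, ← pow_succ]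
        rw [e, key]; module
    have hx'' : lam (l x) = (((M : F) + 1) * (n + M)) • x := sub_eq_zero.mp hx'
    have hll : l (lam x) = (((M : F) + 1) * (n + M) - n) • x := by
      rw [t.ll, hx'', hw]; module
    -- descending: l^k x = 0 for k ≤ n
    have desc : ∀ k : ℕ, k ≤ n → (l ^ k) x = 0 → x = 0 := by
      intro k
      induction k with
      | zero => intro _ h; simpa using h
      | succ k ihk =>
        intro hk h
        apply ihk (by omega)
        have k3 := t.pow_lam hw k
        have e : (l ^ (k + 1)) (lam x) = (((M : F) + 1) * (n + M) - n) • (l ^ k) x := by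
          rw [pow_succ, Module.End.mul_apply, hll, map_smul]
        rw [e, h, map_zero, zero_add] at k3
        have k4 : ((((M : F) + 1) * (n + M) - n) - (k + 1) * (-(n : F) + k)) • (l ^ k) x = 0 := by
          rw [sub_smul, k3]; simp
        rcases smul_eq_zero.mp k4 with h5 | h5
        · exfalso
          have h6 : ((((M : F) + 1) * (n + M) - n) - (k + 1) * (-(n : F) + k))
              = ((M * (n + M + 1) + (k + 1) * (n - k) : ℕ) : F) := by
            rw [Nat.cast_add, Nat.cast_mul, Nat.cast_mul, Nat.cast_sub (by omega)]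
            push_cast; ring
          rw [h6, Nat.cast_eq_zero] at h5
          have : 0 < (k + 1) * (n - k) := Nat.mul_pos (by omega) (by omega)
          omega
        · exact h5
    exact desc n le_rfl h0

theorem s1' (t : Trip h l lam) (f : Fam h l lam S) (n : ℕ) {x : M} (hx : x ∈ S (-(n : ℤ)))
    (h0 : (l ^ (n + 1)) x = 0) : lam x = 0 := by
  have hm : lam x ∈ S (-((n + 2 : ℕ) : ℤ)) := by
    have := f.lam_mem _ _ hx
    have e : (-(n : ℤ) - 2) = -((n + 2 : ℕ) : ℤ) := by push_cast; ring
    rwa [e] at this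
  apply s1 t f (n + 2) hm
  have hw : h x = (-(n : F)) • x := by
    have := f.wt _ _ hx; simpa using this
  have k := t.pow_lam hw (n + 1)
  have e : (l ^ (n + 1 + 1)) x = 0 := by
    rw [pow_succ', Module.End.mul_apply, h0, map_zero]
  rw [e, h0] at k
  simpa using k

/-- A lowest weight vector of weight `-b` is killed by `l^(b+1)`. -/
theorem low_pow (t : Trip h l lam) (f : Fam h l lam S) (b : ℕ) {x : M} (hx : x ∈ S (-(b : ℤ)))
    (h0 : lam x = 0) : (l ^ (b + 1)) x = 0 := by
  have hm : (l ^ (b + 1)) x ∈ (fun j => S (-j)) (-((b + 2 : ℕ) : ℤ)) := by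
    apply f.pow_mem (b + 1) hx
    push_cast; ring
  apply s1 t.symm f.symm (b + 2) hm
  have hw : h x = (-(b : F)) • x := by
    have := f.wt _ _ hx; simpa using this
  have k := t.pow_lam hw b
  rw [h0, map_zero] at k
  have k' : lam ((l ^ (b + 1)) x) = 0 := by
    have : (((b : F) + 1) * (-b + b)) • (l ^ b) x = 0 := by simp
    rw [this, add_zero] at k; exact k.symm
  rw [pow_succ, Module.End.mul_apply, k', map_zero]

/-- A lowest weight vector of positive weight vanishes. -/
theorem low_pos (t : Trip h l lam) (f : Fam h l lam S) (j : ℤ) (hj : 0 < j) {x : M}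
    (hx : x ∈ S j) (h0 : lam x = 0) : x = 0 := by
  obtain ⟨n, rfl⟩ : ∃ n : ℕ, j = (n + 1 : ℕ) := ⟨(j - 1).toNat, by omega⟩
  apply s1 t.symm f.symm (n + 1) (x := x) (by simpa using hx)
  rw [pow_succ, Module.End.mul_apply, h0, map_zero]

/-- `lam (l w) = 0` in weight `-c`, `c ≥ 1`, forces `w = 0`. -/
theorem laml_inj (t : Trip h l lam) (f : Fam h l lam S) (c : ℕ) (hc : 1 ≤ c) {w : M}
    (hw : w ∈ S (-(c : ℤ))) (h0 : lam (l w) = 0) : w = 0 := by
  rcases Nat.lt_or_ge 1 c with h1 | h1
  · -- l w has weight -(c-2), lowest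
    obtain ⟨b, rfl⟩ : ∃ b, c = b + 2 := ⟨c - 2, by omega⟩
    have hm : l w ∈ S (-(b : ℤ)) := by
      have := f.l_mem _ _ hw
      have e : (-((b + 2 : ℕ) : ℤ) + 2) = -(b : ℤ) := by push_cast; ring
      rwa [e] at this
    have := low_pow t f b hm h0
    apply s1 t f (b + 2) hw
    rw [pow_succ, Module.End.mul_apply]; exact this
  · obtain rfl : c = 1 := by omega
    have hm : l w ∈ S 1 := by
      have := f.l_mem _ _ hw
      simpa using this
    have h2 := low_pos t f 1 (by norm_num) hm h0
    apply s1 t f 1 hw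
    simpa using h2

/-- (S2) `l^n : S (-n) → S n` is surjective. -/
theorem s2 (t : Trip h l lam) (f : Fam h l lam S) (n : ℕ) {x : M} (hx : x ∈ S (n : ℤ)) :
    ∃ y ∈ S (-(n : ℤ)), (l ^ n) y = x := by
  obtain ⟨R, hR⟩ := f.bdd
  have main : ∀ m n : ℕ, R < n + m → ∀ x ∈ S (n : ℤ), ∃ y ∈ S (-(n : ℤ)), (l ^ n) y = x := by
    intro m
    induction m with
    | zero =>
      intro n hn x hx
      refine ⟨0, Submodule.zero_mem _, ?_⟩
      rw [map_zero, hR n (by rw [abs_of_nonneg (by positivity)]; exact_mod_cast (by omega)) x hx]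
    | succ m ih =>
      intro n hn x hx
      have hlx : l x ∈ S ((n + 2 : ℕ) : ℤ) := by
        have := f.l_mem _ _ hx; exact_mod_cast this
      obtain ⟨y, hy, hyx⟩ := ih (n + 2) (by omega) _ hlx
      -- x1 = x - l^(n+1) y
      have hx1 : x - (l ^ (n + 1)) y ∈ S (n : ℤ) := by
        refine Submodule.sub_mem _ hx (f.pow_mem (n + 1) hy (by push_cast; ring))
      have hlx1 : l (x - (l ^ (n + 1)) y) = 0 := by
        rw [map_sub, ← hyx, pow_succ' l (n + 1), Module.End.mul_apply]; simp
      set x1 := x - (l ^ (n + 1)) y with hx1def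
      -- l^k lam^k x1 = c x1
      have hwx : (-h) x1 = (-(n : F)) • x1 := by
        have := f.wt _ _ hx1
        simp only [LinearMap.neg_apply, this]; push_cast; module
      have step : ∀ k : ℕ, k ≤ n → ∃ c : F, c ≠ 0 ∧ (l ^ k) ((lam ^ k) x1) = c • x1 := by
        intro k
        induction k with
        | zero => intro _; exact ⟨1, one_ne_zero, by simp⟩
        | succ k ihk =>
          intro hk
          obtain ⟨c, hc, hcx⟩ := ihk (by omega)
          have k1 := t.symm.pow_lam hwx k
          rw [hlx1, map_zero] at k1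
          have k2 : l ((lam ^ (k + 1)) x1) = (((k : F) + 1) * (n - k)) • (lam ^ k) x1 := by
            have e : (((k : F) + 1) * (n - k)) = -(((k : F) + 1) * (-n + k)) := by ring
            rw [e, neg_smul]; exact eq_neg_of_add_eq_zero_left k1.symm
          refine ⟨(((k : F) + 1) * (n - k)) * c, ?_, ?_⟩
          · apply mul_ne_zero _ hc
            have : (((k : F) + 1) * (n - k)) = (((k + 1) * (n - k) : ℕ) : F) := by
              rw [Nat.cast_mul, Nat.cast_sub (by omega)]; push_cast; ring
            rw [this, Nat.cast_ne_zero]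
            exact Nat.mul_ne_zero (by omega) (by omega)
          · rw [pow_succ l k, Module.End.mul_apply, k2, map_smul, hcx, smul_smul]
      obtain ⟨c, hc, hcx⟩ := step n le_rfl
      have hz : (lam ^ n) x1 ∈ S (-(n : ℤ)) := f.pow_lam_mem n hx1 (by ring)
      refine ⟨c⁻¹ • (lam ^ n) x1 + l y, ?_, ?_⟩
      · refine Submodule.add_mem _ (Submodule.smul_mem _ _ hz) ?_
        have := f.l_mem _ _ hy
        have e : (-((n + 2 : ℕ) : ℤ) + 2) = -(n : ℤ) := by push_cast; ring
        rwa [e] at this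
      · rw [map_add, map_smul, hcx, smul_smul, inv_mul_cancel₀ hc, one_smul, hx1def]
        rw [pow_succ, Module.End.mul_apply]; abel
  exact main (R + 1) n (by omega) x hx

/-- `l : S (n-2) → S n` is surjective for `n ≥ 1`. -/
theorem l_surj (t : Trip h l lam) (f : Fam h l lam S) (n : ℕ) (hn : 1 ≤ n) {x : M}
    (hx : x ∈ S (n : ℤ)) : ∃ y ∈ S ((n : ℤ) - 2), l y = x := by
  obtain ⟨y, hy, hyx⟩ := s2 t f n hx
  obtain ⟨m, rfl⟩ : ∃ m, n = m + 1 := ⟨n - 1, by omega⟩
  refine ⟨(l ^ m) y, f.pow_mem m hy (by push_cast; ring), ?_⟩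
  rw [← hyx, pow_succ', Module.End.mul_apply]

/-- In weight `-n ≤ 0`: `x = x1 + l y` with `x1` lowest weight. -/
theorem low_decomp (t : Trip h l lam) (f : Fam h l lam S) (n : ℕ) {x : M}
    (hx : x ∈ S (-(n : ℤ))) :
    ∃ x1 ∈ S (-(n : ℤ)), lam x1 = 0 ∧ ∃ y ∈ S (-((n + 2 : ℕ) : ℤ)), x = x1 + l y := by
  have h1 : (l ^ (n + 1)) x ∈ S ((n + 2 : ℕ) : ℤ) := f.pow_mem (n + 1) hx (by push_cast; ring)
  obtain ⟨y, hy, hyx⟩ := s2 t f (n + 2) h1
  have hly : l y ∈ S (-(n : ℤ)) := by
    have := f.l_mem _ _ hy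
    have e : (-((n + 2 : ℕ) : ℤ) + 2) = -(n : ℤ) := by push_cast; ring
    rwa [e] at this
  refine ⟨x - l y, Submodule.sub_mem _ hx hly, ?_, y, hy, by abel⟩
  apply s1' t f n (Submodule.sub_mem _ hx hly)
  rw [map_sub, ← hyx, pow_succ l (n + 1), Module.End.mul_apply]; simp

/-- (S4) an `l`-stable submodule containing all lowest weight vectors contains everything. -/
theorem s4 (t : Trip h l lam) (f : Fam h l lam S) (U : Submodule F M)
    (hU : ∀ (j : ℤ) (x : M), x ∈ S j → x ∈ U → l x ∈ U)
    (hlow : ∀ (b : ℕ) (x : M), x ∈ S (-(b : ℤ)) → lam x = 0 → x ∈ U)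
    (j : ℤ) {x : M} (hx : x ∈ S j) : x ∈ U := by
  obtain ⟨R, hR⟩ := f.bdd
  have main : ∀ m n : ℕ, R < n + m → ∀ x ∈ S (-(n : ℤ)), x ∈ U := by
    intro m
    induction m with
    | zero =>
      intro n hn x hx
      rw [hR (-(n : ℤ)) (by rw [abs_neg, abs_of_nonneg (by positivity)]; exact_mod_cast (by omega)) x hx]
      exact Submodule.zero_mem _
    | succ m ih =>
      intro n hn x hx
      obtain ⟨x1, hx1, hl1, y, hy, rfl⟩ := low_decomp t f n hx
      exact Submodule.add_mem _ (hlow n x1 hx1 hl1) (hU _ _ hy (ih (n + 2) (by omega) y hy))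
  have neg : ∀ n : ℕ, ∀ x ∈ S (-(n : ℤ)), x ∈ U := fun n x hx => main (R + 1) n (by omega) x hx
  rcases le_or_gt j 0 with hj | hj
  · obtain ⟨n, rfl⟩ : ∃ n : ℕ, j = -(n : ℤ) := ⟨(-j).toNat, by omega⟩
    exact neg n x hx
  · obtain ⟨n, rfl⟩ : ∃ n : ℕ, j = (n : ℤ) := ⟨j.toNat, by omega⟩
    obtain ⟨y, hy, rfl⟩ := s2 t f n hx
    have hy' := neg n y hy
    have : ∀ k : ℕ, (l ^ k) y ∈ U := by
      intro k
      induction k with
      | zero => simpa using hy'
      | succ k ih =>
        rw [pow_succ', Module.End.mul_apply]; exact hU _ _ (f.pow_mem k hy rfl) ih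
    exact this n

end H43.WM
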