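import Pool.Agent.H43.WM.LC

/-! The graded system of operators, its `E_1`-complex, and the identities. -/

namespace H43.WM

variable {F V : Type*} [Field F] [CharZero F] [AddCommGroup V] [Module F V]

/-- Bigraded system. -/
structure Sys (h l lam ρ τ : Module.End F V) (B : ℤ → ℤ → Submodule F V) : Prop where
  t : Trip h l lam
  wt : ∀ a j x, x ∈ B a j → h x = (j : F) • x
  l_mem : ∀ a j x, x ∈ B a j → l x ∈ B a (j + 2)
  lam_mem : ∀ a j x, x ∈ B a j → lam x ∈ B a (j - 2)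
  ρ_mem : ∀ a j x, x ∈ B a j → ρ x ∈ B (a + 1) (j + 1)
  τ_mem : ∀ a j x, x ∈ B a j → τ x ∈ B (a - 1) (j + 1)
  bdd : ∃ R : ℕ, ∀ a j : ℤ, ((R : ℤ) < |j| ∨ (R : ℤ) < a) → ∀ x ∈ B a j, x = 0
  neg : ∀ a j, a < 0 → ∀ x ∈ B a j, x = 0
  ρl : ∀ x, ρ (l x) = l (ρ x)
  τl : ∀ x, τ (l x) = l (τ x)
  ρρ : ∀ x, ρ (ρ x) = 0
  ττ : ∀ x, τ (τ x) = 0
  anti : ∀ a j, 1 ≤ a → ∀ x ∈ B a j, ρ (τ x) + τ (ρ x) = 0
  lamρ : ∀ x, lam (dp lam ρ x) = dp lam ρ (lam x)
  lamτ : ∀ x, lam (dp lam τ x) = dp lam τ (lam x)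

omit [CharZero F] in
theorem lam_ap (lam s : Module.End F V) (x : V) : lam (s x) = dp lam s x + s (lam x) := by
  rw [dp_apply]; abel

omit [CharZero F] in
theorem cm {B : ℤ → ℤ → Submodule F V} {a j a' j' : ℤ} {x : V} (hx : x ∈ B a j)
    (ha : a = a') (hj : j = j') : x ∈ B a' j' := by subst ha; subst hj; exact hx

/-- Pointwise application. -/
def up (f : Module.End F V) : Module.End F (ℕ → V) where
  toFun x t := f (x t)
  map_add' x y := by ext t; simp
  map_smul' c x := by ext t; simp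

/-- The differential. -/
def dd (ρ τ : Module.End F V) : Module.End F (ℕ → V) where
  toFun x t := ρ (x t) + τ (x (t + 1))
  map_add' x y := by ext t; simp only [Pi.add_apply, map_add]; abel
  map_smul' c x := by ext t; simp only [Pi.smul_apply, map_smul, smul_add, RingHom.id_apply]

omit [CharZero F] in
theorem up_apply (f : Module.End F V) (x : ℕ → V) (t : ℕ) : up f x t = f (x t) := rfl

omit [CharZero F] in
theorem dd_apply (ρ τ : Module.End F V) (x : ℕ → V) (t : ℕ) :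
    dd ρ τ x t = ρ (x t) + τ (x (t + 1)) := rfl

omit [CharZero F] in
theorem up_pow (f : Module.End F V) (n : ℕ) (x : ℕ → V) (t : ℕ) :
    (up f ^ n) x t = (f ^ n) (x t) := by
  induction n generalizing x with
  | zero => simp
  | succ n ih => rw [pow_succ, pow_succ, Module.End.mul_apply, Module.End.mul_apply, ih, up_apply]

omit [CharZero F] in
theorem dp_up (lam ρ τ : Module.End F V) :
    dp (up lam) (dd ρ τ) = dd (dp lam ρ) (dp lam τ) := by
  ext x t
  simp only [dp_apply, up_apply, dd_apply, Pi.sub_apply, map_add]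
  abel

/-- The `E_1`-terms. -/
def LL (B : ℤ → ℤ → Submodule F V) (i j : ℤ) : Submodule F (ℕ → V) where
  carrier := {x | ∀ t : ℕ, x t ∈ B (i + 2 * t) j ∧ (i + t < 0 → x t = 0)}
  add_mem' := by
    intro x y hx hy t
    exact ⟨Submodule.add_mem _ (hx t).1 (hy t).1, fun h => by
      rw [Pi.add_apply, (hx t).2 h, (hy t).2 h, add_zero]⟩
  zero_mem' := by intro t; exact ⟨Submodule.zero_mem _, fun _ => rfl⟩
  smul_mem' := by
    intro c x hx t
    exact ⟨Submodule.smul_mem _ _ (hx t).1, fun h => by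
      rw [Pi.smul_apply, (hx t).2 h, smul_zero]⟩

omit [CharZero F] in
theorem mem_LL {B : ℤ → ℤ → Submodule F V} {i j : ℤ} {x : ℕ → V} :
    x ∈ LL B i j ↔ ∀ t : ℕ, x t ∈ B (i + 2 * t) j ∧ (i + t < 0 → x t = 0) := Iff.rfl

namespace Sys

variable {h l lam ρ τ : Module.End F V} {B : ℤ → ℤ → Submodule F V}

omit [CharZero F] in
theorem fam (S : Sys h l lam ρ τ B) (a : ℤ) : Fam h l lam (B a) where
  wt j x hx := S.wt a j x hx
  l_mem j x hx := S.l_mem a j x hx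
  lam_mem j x hx := S.lam_mem a j x hx
  bdd := by
    obtain ⟨R, hR⟩ := S.bdd
    exact ⟨R, fun j hj x hx => hR a j (Or.inl hj) x hx⟩

omit [CharZero F] in
theorem ρ'_mem (S : Sys h l lam ρ τ B) {a j : ℤ} {x : V} (hx : x ∈ B a j) :
    dp lam ρ x ∈ B (a + 1) (j - 1) := by
  rw [dp_apply]
  exact Submodule.sub_mem _ (cm (S.lam_mem _ _ _ (S.ρ_mem _ _ _ hx)) rfl (by ring))
    (cm (S.ρ_mem _ _ _ (S.lam_mem _ _ _ hx)) rfl (by ring))

omit [CharZero F] in
theorem τ'_mem (S : Sys h l lam ρ τ B) {a j : ℤ} {x : V} (hx : x ∈ B a j) :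
    dp lam τ x ∈ B (a - 1) (j - 1) := by
  rw [dp_apply]
  exact Submodule.sub_mem _ (cm (S.lam_mem _ _ _ (S.τ_mem _ _ _ hx)) rfl (by ring))
    (cm (S.τ_mem _ _ _ (S.lam_mem _ _ _ hx)) rfl (by ring))

omit [CharZero F] in
theorem lρ' (S : Sys h l lam ρ τ B) {a j : ℤ} {x : V} (hx : x ∈ B a j) :
    l (dp lam ρ x) = dp lam ρ (l x) + ρ x := by
  have h1 := S.wt _ _ _ (S.ρ_mem _ _ _ hx)
  have h2 := S.wt _ _ _ hx
  rw [dp_apply, dp_apply, map_sub, S.t.ll (ρ x), S.ρl x, ← S.ρl (lam x), S.t.ll x, map_add, h1, h2,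
    map_smul]
  push_cast; module

omit [CharZero F] in
theorem lτ' (S : Sys h l lam ρ τ B) {a j : ℤ} {x : V} (hx : x ∈ B a j) :
    l (dp lam τ x) = dp lam τ (l x) + τ x := by
  have h1 := S.wt _ _ _ (S.τ_mem _ _ _ hx)
  have h2 := S.wt _ _ _ hx
  rw [dp_apply, dp_apply, map_sub, S.t.ll (τ x), S.τl x, ← S.τl (lam x), S.t.ll x, map_add, h1, h2,
    map_smul]
  push_cast; module

omit [CharZero F] in
theorem ρ'ρ (S : Sys h l lam ρ τ B) (x : V) : dp lam ρ (ρ x) = - ρ (dp lam ρ x) := by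
  rw [dp_apply, dp_apply, map_sub, S.ρρ, S.ρρ]; simp

omit [CharZero F] in
theorem τ'τ (S : Sys h l lam ρ τ B) (x : V) : dp lam τ (τ x) = - τ (dp lam τ x) := by
  rw [dp_apply, dp_apply, map_sub, S.ττ, S.ττ]; simp

theorem two_smul_cancel (F : Type*) {V : Type*} [Field F] [CharZero F] [AddCommGroup V]
    [Module F V] {x : V} (hx : x + x = 0) : x = 0 := by
  have : (2 : F) • x = 0 := by rw [two_smul]; exact hx
  exact (smul_eq_zero.mp this).resolve_left two_ne_zero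

theorem ρ'ρ' (S : Sys h l lam ρ τ B) (x : V) : dp lam ρ (dp lam ρ x) = 0 := by
  apply two_smul_cancel F
  have h1 := congrArg lam (S.ρ'ρ x)
  rw [S.lamρ, lam_ap lam ρ x, map_add, S.ρ'ρ, map_neg, lam_ap lam ρ (dp lam ρ x), S.lamρ] at h1
  have h2 : dp lam ρ (dp lam ρ x) + dp lam ρ (dp lam ρ x) =
    (dp lam ρ (dp lam ρ x) + -ρ (dp lam ρ (lam x)))
      - (-(dp lam ρ (dp lam ρ x) + ρ (dp lam ρ (lam x)))) := by abel
  rw [h2, h1, sub_self]

theorem τ'τ' (S : Sys h l lam ρ τ B) (x : V) : dp lam τ (dp lam τ x) = 0 := by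
  apply two_smul_cancel F
  have h1 := congrArg lam (S.τ'τ x)
  rw [S.lamτ, lam_ap lam τ x, map_add, S.τ'τ, map_neg, lam_ap lam τ (dp lam τ x), S.lamτ] at h1
  have h2 : dp lam τ (dp lam τ x) + dp lam τ (dp lam τ x) =
    (dp lam τ (dp lam τ x) + -τ (dp lam τ (lam x)))
      - (-(dp lam τ (dp lam τ x) + τ (dp lam τ (lam x)))) := by abel
  rw [h2, h1, sub_self]

omit [CharZero F] in
/-- R1 -/
theorem R1 (S : Sys h l lam ρ τ B) {a j : ℤ} (ha : 1 ≤ a) {x : V} (hx : x ∈ B a j) :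
    dp lam ρ (τ x) + ρ (dp lam τ x) + dp lam τ (ρ x) + τ (dp lam ρ x) = 0 := by
  have h0 := S.anti a j ha x hx
  have h1 := congrArg lam h0
  have h2 := S.anti a _ ha _ (S.lam_mem _ _ _ hx)
  simp only [map_add, map_zero, lam_ap lam ρ, lam_ap lam τ] at h1
  rw [← h1]
  have : dp lam ρ (τ x) + (ρ (dp lam τ x) + ρ (τ (lam x)))
      + (dp lam τ (ρ x) + (τ (dp lam ρ x) + τ (ρ (lam x)))) =
      (dp lam ρ (τ x) + ρ (dp lam τ x) + dp lam τ (ρ x) + τ (dp lam ρ x))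
        + (ρ (τ (lam x)) + τ (ρ (lam x))) := by abel
  rw [this, h2, add_zero]

/-- R2 -/
theorem R2 (S : Sys h l lam ρ τ B) {a j : ℤ} (ha : 1 ≤ a) {x : V} (hx : x ∈ B a j) :
    dp lam ρ (dp lam τ x) + dp lam τ (dp lam ρ x) = 0 := by
  apply two_smul_cancel F
  have h0 := S.R1 ha hx
  have h1 := congrArg lam h0
  have h2 := S.R1 ha (S.lam_mem _ _ _ hx)
  simp only [map_add, map_zero, lam_ap lam ρ, lam_ap lam τ, S.lamρ, S.lamτ] at h1
  have : dp lam ρ (dp lam τ x) + dp lam τ (dp lam ρ x)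
      + (dp lam ρ (dp lam τ x) + dp lam τ (dp lam ρ x)) =
      (dp lam ρ (dp lam τ x) + dp lam ρ (τ (lam x))
        + (dp lam ρ (dp lam τ x) + ρ (dp lam τ (lam x)))
        + (dp lam τ (dp lam ρ x) + dp lam τ (ρ (lam x)))
        + (dp lam τ (dp lam ρ x) + τ (dp lam ρ (lam x))))
      - (dp lam ρ (τ (lam x)) + ρ (dp lam τ (lam x)) + dp lam τ (ρ (lam x))
          + τ (dp lam ρ (lam x))) := by abel
  rw [this, h1, h2, sub_zero]

/-! ### The complex -/

omit [CharZero F] in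
theorem LL_d (S : Sys h l lam ρ τ B) {i j : ℤ} {x : ℕ → V} (hx : x ∈ LL B i j) :
    dd ρ τ x ∈ LL B (i + 1) (j + 1) := by
  intro t
  have h1 := hx t
  have h2 := hx (t + 1)
  refine ⟨?_, ?_⟩
  · rw [dd_apply]
    exact Submodule.add_mem _ (cm (S.ρ_mem _ _ _ h1.1) (by ring) rfl)
      (cm (S.τ_mem _ _ _ h2.1) (by push_cast; ring) rfl)
  · intro ht
    rw [dd_apply, h1.2 (by omega), h2.2 (by push_cast; omega)]; simp

omit [CharZero F] in
theorem LL_dd (S : Sys h l lam ρ τ B) {i j : ℤ} {x : ℕ → V} (hx : x ∈ LL B i j) :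
    dd ρ τ (dd ρ τ x) = 0 := by
  ext t
  simp only [dd_apply, map_add, S.ρρ, S.ττ, Pi.zero_apply, zero_add, add_zero]
  have h2 := hx (t + 1)
  rcases le_or_gt 1 (i + 2 * ((t + 1 : ℕ) : ℤ)) with h | h
  · exact S.anti _ _ h _ h2.1
  · rw [h2.2 (by push_cast at h ⊢; omega)]; simp

/-- The Lefschetz complex of a system satisfying hard Lefschetz. -/
theorem lc (S : Sys h l lam ρ τ B)
    (HL1 : ∀ (i : ℤ) (n : ℕ) (x : ℕ → V), x ∈ LL B i (-n) → dd ρ τ x = 0 →
      (∃ z ∈ LL B (i - 1) (n - 1), dd ρ τ z = (up l ^ n) x) →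
        ∃ z ∈ LL B (i - 1) (-n - 1), dd ρ τ z = x)
    (HL2 : ∀ (i : ℤ) (n : ℕ) (y : ℕ → V), y ∈ LL B i n → dd ρ τ y = 0 →
      ∃ x ∈ LL B i (-n), dd ρ τ x = 0 ∧
        ∃ z ∈ LL B (i - 1) (n - 1), y = (up l ^ n) x + dd ρ τ z) :
    LC (up h) (up l) (up lam) (dd ρ τ) (LL B) where
  t := { hl := fun x => by ext t; exact S.t.hl (x t)
         hlam := fun x => by ext t; exact S.t.hlam (x t)
         ll := fun x => by ext t; exact S.t.ll (x t) }
  fam i := { wt := fun j x hx => by ext t; exact S.wt _ _ _ (hx t).1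
             l_mem := fun j x hx t => ⟨S.l_mem _ _ _ (hx t).1, fun ht => by
               rw [up_apply, (hx t).2 ht, map_zero]⟩
             lam_mem := fun j x hx t => ⟨S.lam_mem _ _ _ (hx t).1, fun ht => by
               rw [up_apply, (hx t).2 ht, map_zero]⟩
             bdd := by
               obtain ⟨R, hR⟩ := S.bdd
               refine ⟨R, fun j hj x hx => ?_⟩
               ext t
               exact hR _ j (Or.inl hj) _ (hx t).1 }
  dl x := by ext t; simp only [dd_apply, up_apply, map_add, S.ρl, S.τl]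
  dlam x := by
    rw [dp_up]; ext t
    simp only [dd_apply, up_apply, map_add, S.lamρ, S.lamτ]
  d_mem i j x hx := S.LL_d hx
  dd i j x hx := S.LL_dd hx
  HL1 := HL1
  HL2 := HL2

omit [CharZero F] in
theorem bx_apply (a : F) (u : V) : bx lam ρ τ a u =
    τ (dp lam ρ u) - dp lam τ (ρ u) - a • (ρ (dp lam τ u) + dp lam τ (ρ u)) := rfl

omit [CharZero F] in
theorem single_mem {i j : ℤ} (t : ℕ) {u : V} (hu : u ∈ B (i + 2 * t) j) (ht : 0 ≤ i + t) :
    Pi.single t u ∈ LL B i j := by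
  intro s
  rcases eq_or_ne s t with rfl | hst
  · rw [Pi.single_eq_same]
    exact ⟨hu, fun h => absurd h (by omega)⟩
  · rw [Pi.single_eq_of_ne hst]
    exact ⟨Submodule.zero_mem _, fun _ => rfl⟩

/-! ### The homotopy -/

/-- The homotopy `δ`. -/
def ho (ρ' τ' : Module.End F V) (i : ℤ) (x : ℕ → V) (t : ℕ) : V :=
  (t : F) • ρ' (x (t - 1)) - ((i + t : ℤ) : F) • τ' (x t)

omit [CharZero F] in
theorem ho_mem (S : Sys h l lam ρ τ B) {i j : ℤ} {x : ℕ → V} (hx : x ∈ LL B i j) :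
    ho (dp lam ρ) (dp lam τ) i x ∈ LL B (i - 1) (j - 1) := by
  intro t
  unfold ho
  rcases t with _ | t
  · simp only [Nat.cast_zero, zero_smul, zero_sub]
    refine ⟨Submodule.neg_mem _ (Submodule.smul_mem _ _ (cm (S.τ'_mem (hx 0).1) (by
      push_cast; ring) rfl)), ?_⟩
    intro ht
    rcases lt_or_eq_of_le (show i + ((0 : ℕ) : ℤ) ≤ 0 by push_cast; omega) with h1 | h1
    · rw [(hx 0).2 h1]; simp
    · have : ((i + 0 : ℤ) : F) = 0 := by
        have : i + (0 : ℤ) = 0 := by simpa using h1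
        rw [this]; simp
      rw [this]; simp
  · simp only [Nat.add_sub_cancel]
    refine ⟨Submodule.sub_mem _ (Submodule.smul_mem _ _ (cm (S.ρ'_mem (hx t).1) (by
      push_cast; ring) rfl)) (Submodule.smul_mem _ _ (cm (S.τ'_mem (hx (t + 1)).1) (by
      push_cast; ring) rfl)), ?_⟩
    intro ht
    have h0 := (hx t).2 (by push_cast at ht; omega)
    rcases lt_or_eq_of_le (show i + ((t + 1 : ℕ) : ℤ) ≤ 0 by push_cast at ht ⊢; omega) with h1 | h1
    · rw [h0, (hx (t + 1)).2 h1]; simp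
    · rw [h0, h1]; simp

/-- `dδ + δd = bx`. -/
theorem ho_eq (S : Sys h l lam ρ τ B) {i j : ℤ} {x : ℕ → V} (hx : x ∈ LL B i j) :
    dd ρ τ (ho (dp lam ρ) (dp lam τ) i x) + ho (dp lam ρ) (dp lam τ) (i + 1) (dd ρ τ x)
      = fun t : ℕ => bx lam ρ τ ((i + 2 * t : ℤ) : F) (x t) := by
  ext t
  have hB := hx t
  have e0 : bx lam ρ τ ((i + 2 * t : ℤ) : F) (x t) =
      τ (dp lam ρ (x t)) - dp lam τ (ρ (x t))
        - ((i + 2 * t : ℤ) : F) • (ρ (dp lam τ (x t)) + dp lam τ (ρ (x t))) := rfl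
  -- the relation times t
  have rel : (t : F) • (dp lam ρ (τ (x t)) + ρ (dp lam τ (x t)) + dp lam τ (ρ (x t))
      + τ (dp lam ρ (x t))) = 0 := by
    rcases Nat.eq_zero_or_pos t with h0 | h0
    · subst h0; simp
    · rcases le_or_gt 1 (i + 2 * (t : ℤ)) with h1 | h1
      · rw [S.R1 h1 hB.1, smul_zero]
      · rw [hB.2 (by omega)]; simp
  have hρ1 : ∀ y, ρ (dp lam ρ y) = - dp lam ρ (ρ y) := fun y => by rw [S.ρ'ρ, neg_neg]
  have hτ1 : ∀ y, τ (dp lam τ y) = - dp lam τ (τ y) := fun y => by rw [S.τ'τ, neg_neg]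
  rw [e0, Pi.add_apply, dd_apply]
  unfold ho
  rcases t with _ | t
  · simp only [dd_apply, map_add, map_sub, map_smul, Nat.cast_zero, zero_smul, zero_sub, map_neg,
      Nat.cast_add, Nat.cast_one, hτ1, smul_add, Nat.zero_add, Nat.add_sub_cancel, Nat.zero_sub]
    push_cast
    module
  · simp only [dd_apply, map_add, map_sub, map_smul, hτ1, hρ1, smul_add,
      Nat.add_sub_cancel, Nat.cast_add, Nat.cast_one] at rel ⊢
    push_cast at rel ⊢
    rw [← sub_eq_zero] at rel ⊢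
    rw [← rel]
    module

end Sys

end H43.WM
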